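import Mathlib

set_option autoImplicit false
set_option linter.unusedSectionVars false

/-! # Functions of bounded level on weighted product spaces (helper55)

For a finite product of finite probability spaces and functions which are sums of functions of
few coordinates, we prove a spectral inequality, a pointwise evaluation inequality and the
Efron–Stein inequality. -/

namespace Pool.Agent.J4.H55.SQ

open Finset

variable {ι : Type} [Fintype ι] [DecidableEq ι] {Ω : ι → Type} [∀ i, Fintype (Ω i)]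

/-- expectation with respect to the product weight -/
noncomputable def EE (μ : ∀ i, Ω i → ℝ) (F : (∀ i, Ω i) → ℝ) : ℝ :=
  ∑ x : ∀ i, Ω i, (∏ i, μ i (x i)) * F x

/-- average over the coordinate `j` -/
noncomputable def av (μ : ∀ i, Ω i → ℝ) (j : ι) (F : (∀ i, Ω i) → ℝ) (x : ∀ i, Ω i) : ℝ :=
  ∑ a, μ j a * F (Function.update x j a)

/-- deviation from the average over the coordinate `j` -/
noncomputable def dv (μ : ∀ i, Ω i → ℝ) (j : ι) (F : (∀ i, Ω i) → ℝ) (x : ∀ i, Ω i) : ℝ :=
  F x - av μ j F x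

/-- `F` depends only on the coordinates in `T` -/
def dep (T : Finset ι) (F : (∀ i, Ω i) → ℝ) : Prop :=
  ∀ x y : ∀ i, Ω i, (∀ i ∈ T, x i = y i) → F x = F y

/-- `F` is a sum of functions of the coordinates in sets `D ⊆ T` of weight at most `L` -/
def Lev (w : ι → ℝ) (T : Finset ι) (L : ℝ) (F : (∀ i, Ω i) → ℝ) : Prop :=
  ∃ g : Finset ι → (∀ i, Ω i) → ℝ, (∀ D, L < ∑ i ∈ D, w i → g D = 0) ∧ (∀ D, dep D (g D)) ∧
    ∀ x, F x = ∑ D ∈ T.powerset, g D x

variable {μ : ∀ i, Ω i → ℝ}

omit [Fintype ι] in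
lemma prod_update_aux [Fintype ι] (x : ∀ i, Ω i) (j : ι) (a : Ω j) :
    ∏ i, μ i (Function.update x j a i) = μ j a * ∏ i ∈ univ.erase j, μ i (x i) := by
  rw [← Finset.mul_prod_erase univ _ (mem_univ j), Function.update_self]
  congr 1
  apply Finset.prod_congr rfl
  intro i hi
  rw [Function.update_of_ne (Finset.ne_of_mem_erase hi)]

lemma prod_split (x : ∀ i, Ω i) (j : ι) :
    ∏ i, μ i (x i) = μ j (x j) * ∏ i ∈ univ.erase j, μ i (x i) :=
  (Finset.mul_prod_erase univ (fun i => μ i (x i)) (mem_univ j)).symm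

/-- exchanging a coordinate -/
def swp (j : ι) : ((∀ i, Ω i) × Ω j) ≃ ((∀ i, Ω i) × Ω j) where
  toFun y := (Function.update y.1 j y.2, y.1 j)
  invFun y := (Function.update y.1 j y.2, y.1 j)
  left_inv y := by simp
  right_inv y := by simp

lemma EE_av (hμ : ∀ i, ∑ a, μ i a = 1) (j : ι) (F : (∀ i, Ω i) → ℝ) :
    EE μ (av μ j F) = EE μ F := by
  have h1 : EE μ (av μ j F) = ∑ y : (∀ i, Ω i) × Ω j,
      (∏ i, μ i (y.1 i)) * (μ j y.2 * F (Function.update y.1 j y.2)) := by
    unfold EE av
    rw [Fintype.sum_prod_type]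
    apply Finset.sum_congr rfl
    intro x _
    rw [Finset.mul_sum]
  have h2 : EE μ F = ∑ y : (∀ i, Ω i) × Ω j, (∏ i, μ i (y.1 i)) * (μ j y.2 * F y.1) := by
    unfold EE
    rw [Fintype.sum_prod_type]
    apply Finset.sum_congr rfl
    intro x _
    simp only
    rw [← Finset.mul_sum, ← Finset.sum_mul, hμ j, one_mul]
  rw [h1, h2]
  refine Fintype.sum_equiv (swp j) _ _ ?_
  intro y
  change _ = (∏ i, μ i (Function.update y.1 j y.2 i)) * (μ j (y.1 j) *
    F (Function.update y.1 j y.2))
  rw [prod_update_aux, prod_split y.1 j]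
  ring

omit [Fintype ι] in
lemma av_add (j : ι) (F G : (∀ i, Ω i) → ℝ) :
    av μ j (fun x => F x + G x) = fun x => av μ j F x + av μ j G x := by
  funext x
  unfold av
  rw [← Finset.sum_add_distrib]
  exact Finset.sum_congr rfl (fun a _ => by ring)

omit [Fintype ι] in
lemma av_sub (j : ι) (F G : (∀ i, Ω i) → ℝ) :
    av μ j (fun x => F x - G x) = fun x => av μ j F x - av μ j G x := by
  funext x
  unfold av
  rw [← Finset.sum_sub_distrib]
  exact Finset.sum_congr rfl (fun a _ => by ring)

omit [Fintype ι] in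
lemma av_sum (j : ι) {τ : Type} (s : Finset τ) (F : τ → (∀ i, Ω i) → ℝ) :
    av μ j (fun x => ∑ t ∈ s, F t x) = fun x => ∑ t ∈ s, av μ j (F t) x := by
  funext x
  unfold av
  rw [Finset.sum_comm]
  exact Finset.sum_congr rfl (fun a _ => by rw [Finset.mul_sum])

omit [Fintype ι] in
lemma av_const_mul (j : ι) (c : ℝ) (F : (∀ i, Ω i) → ℝ) :
    av μ j (fun x => c * F x) = fun x => c * av μ j F x := by
  funext x
  unfold av
  rw [Finset.mul_sum]
  exact Finset.sum_congr rfl (fun a _ => by ring)

omit [Fintype ι] in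
lemma av_update (j : ι) (F : (∀ i, Ω i) → ℝ) (x : ∀ i, Ω i) (a : Ω j) :
    av μ j F (Function.update x j a) = av μ j F x := by
  unfold av
  exact Finset.sum_congr rfl (fun b _ => by rw [Function.update_idem])

omit [Fintype ι] in
lemma av_of_indep (hμ : ∀ i, ∑ a, μ i a = 1) (j : ι) (F : (∀ i, Ω i) → ℝ)
    (hF : ∀ x (a : Ω j), F (Function.update x j a) = F x) : av μ j F = F := by
  funext x
  unfold av
  simp only [hF]
  rw [← Finset.sum_mul, hμ j, one_mul]

omit [Fintype ι] in
lemma av_mul_indep (j : ι) (F G : (∀ i, Ω i) → ℝ)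
    (hG : ∀ x (a : Ω j), G (Function.update x j a) = G x) :
    av μ j (fun x => F x * G x) = fun x => av μ j F x * G x := by
  funext x
  unfold av
  simp only [hG]
  rw [Finset.sum_mul]
  exact Finset.sum_congr rfl (fun a _ => by ring)

omit [Fintype ι] in
lemma av_comm (i j : ι) (F : (∀ i, Ω i) → ℝ) : av μ i (av μ j F) = av μ j (av μ i F) := by
  by_cases h : i = j
  · subst h; rfl
  funext x
  unfold av
  simp only [Finset.mul_sum]
  rw [Finset.sum_comm]
  apply Finset.sum_congr rfl
  intro b _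
  apply Finset.sum_congr rfl
  intro a _
  rw [Function.update_comm h]
  ring

omit [Fintype ι] in
/-- the restriction to a value of a coordinate commutes with the average over another one -/
lemma av_restrict {i j : ι} (h : i ≠ j) (F : (∀ i, Ω i) → ℝ) (b : Ω j) :
    av μ i (fun x => F (Function.update x j b)) =
      fun x => av μ i F (Function.update x j b) := by
  funext x
  unfold av
  apply Finset.sum_congr rfl
  intro a _
  simp only
  rw [Function.update_comm h]

omit [Fintype ι] in
lemma av_dv (hμ : ∀ i, ∑ a, μ i a = 1) (j : ι) (F : (∀ i, Ω i) → ℝ) :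
    av μ j (dv μ j F) = fun _ => 0 := by
  have h1 : av μ j (av μ j F) = av μ j F := av_of_indep hμ j _ (fun x a => av_update j F x a)
  unfold dv
  rw [av_sub, h1]
  funext x
  simp

omit [Fintype ι] in
lemma dv_comm (i j : ι) (F : (∀ i, Ω i) → ℝ) : dv μ i (dv μ j F) = dv μ j (dv μ i F) := by
  unfold dv
  rw [av_sub, av_sub, av_comm i j]
  funext x
  ring

omit [Fintype ι] in
lemma av_dv_comm (i j : ι) (F : (∀ i, Ω i) → ℝ) : av μ i (dv μ j F) = dv μ j (av μ i F) := by
  unfold dv
  rw [av_sub, av_comm i j]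

lemma EE_add (F G : (∀ i, Ω i) → ℝ) : EE μ (fun x => F x + G x) = EE μ F + EE μ G := by
  unfold EE
  rw [← Finset.sum_add_distrib]
  exact Finset.sum_congr rfl (fun x _ => by ring)

lemma EE_sub (F G : (∀ i, Ω i) → ℝ) : EE μ (fun x => F x - G x) = EE μ F - EE μ G := by
  unfold EE
  rw [← Finset.sum_sub_distrib]
  exact Finset.sum_congr rfl (fun x _ => by ring)

lemma EE_mul (c : ℝ) (F : (∀ i, Ω i) → ℝ) : EE μ (fun x => c * F x) = c * EE μ F := by
  unfold EE
  rw [Finset.mul_sum]
  exact Finset.sum_congr rfl (fun x _ => by ring)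

lemma EE_sum {τ : Type} (s : Finset τ) (F : τ → (∀ i, Ω i) → ℝ) :
    EE μ (fun x => ∑ t ∈ s, F t x) = ∑ t ∈ s, EE μ (F t) := by
  unfold EE
  rw [Finset.sum_comm]
  exact Finset.sum_congr rfl (fun x _ => by rw [Finset.mul_sum])

lemma EE_mono (hμ0 : ∀ i a, 0 ≤ μ i a) {F G : (∀ i, Ω i) → ℝ} (h : ∀ x, F x ≤ G x) :
    EE μ F ≤ EE μ G := by
  unfold EE
  apply Finset.sum_le_sum
  intro x _
  exact mul_le_mul_of_nonneg_left (h x) (Finset.prod_nonneg (fun i _ => hμ0 i _))

lemma EE_nonneg (hμ0 : ∀ i a, 0 ≤ μ i a) {F : (∀ i, Ω i) → ℝ} (h : ∀ x, 0 ≤ F x) :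
    0 ≤ EE μ F := by
  unfold EE
  exact Finset.sum_nonneg (fun x _ => mul_nonneg (Finset.prod_nonneg (fun i _ => hμ0 i _)) (h x))

lemma EE_one (hμ : ∀ i, ∑ a, μ i a = 1) : EE μ (fun _ => 1) = 1 := by
  unfold EE
  simp only [mul_one]
  have := Finset.prod_univ_sum (fun i => (univ : Finset (Ω i))) (fun i a => μ i a)
  rw [Fintype.piFinset_univ] at this
  rw [← this]
  exact Finset.prod_eq_one (fun i _ => hμ i)

lemma EE_const (hμ : ∀ i, ∑ a, μ i a = 1) (c : ℝ) : EE μ (fun _ => c) = c := by
  have := EE_mul (μ := μ) c (fun _ => 1)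
  rw [EE_one hμ] at this
  simpa using this

lemma EE_restrict (hμ : ∀ i, ∑ a, μ i a = 1) (j : ι) (F : (∀ i, Ω i) → ℝ) :
    ∑ a, μ j a * EE μ (fun x => F (Function.update x j a)) = EE μ F := by
  rw [← EE_av hμ j F]
  have : av μ j F = fun x => ∑ a, μ j a * F (Function.update x j a) := rfl
  rw [this, EE_sum]
  exact Finset.sum_congr rfl (fun a _ => (EE_mul _ _).symm)

/-- orthogonality of the average and the deviation -/
lemma pyth (hμ : ∀ i, ∑ a, μ i a = 1) (j : ι) (F : (∀ i, Ω i) → ℝ) :
    EE μ (fun x => (F x) ^ 2) = EE μ (fun x => (av μ j F x) ^ 2) +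
      EE μ (fun x => (dv μ j F x) ^ 2) := by
  have h1 : EE μ (fun x => dv μ j F x * av μ j F x) = 0 := by
    rw [← EE_av hμ j, av_mul_indep j (dv μ j F) (av μ j F) (fun x a => av_update j F x a),
      av_dv hμ j F]
    simp only [zero_mul]
    exact EE_const hμ 0
  have h2 : (fun x => (F x) ^ 2) = fun x => ((av μ j F x) ^ 2 + (dv μ j F x) ^ 2) +
      2 * (dv μ j F x * av μ j F x) := by
    funext x
    unfold dv
    ring
  rw [h2, EE_add, EE_add, EE_mul, h1]
  ring

omit [Fintype ι] in
lemma dep_av {j : ι} {D : Finset ι} {F : (∀ i, Ω i) → ℝ} (h : dep (insert j D) F) :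
    dep D (av μ j F) := by
  intro x y hxy
  unfold av
  apply Finset.sum_congr rfl
  intro a _
  congr 1
  apply h
  intro i hi
  by_cases hij : i = j
  · subst hij; simp
  · rw [Function.update_of_ne hij, Function.update_of_ne hij]
    rcases Finset.mem_insert.mp hi with h1 | h1
    · exact absurd h1 hij
    · exact hxy i h1

omit [Fintype ι] in
lemma dep_mono {D E : Finset ι} (hDE : D ⊆ E) {F : (∀ i, Ω i) → ℝ} (h : dep D F) : dep E F :=
  fun x y hxy => h x y (fun i hi => hxy i (hDE hi))

omit [Fintype ι] in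
lemma Lev_av {w : ι → ℝ} (hw : ∀ i, 0 ≤ w i) {T : Finset ι} {j : ι} (hj : j ∉ T) {L : ℝ}
    {F : (∀ i, Ω i) → ℝ} (h : Lev w (insert j T) L F) : Lev w T L (av μ j F) := by
  obtain ⟨g, h1, h2, h3⟩ := h
  refine ⟨fun D x => av μ j (g D) x + av μ j (g (insert j D)) x, ?_, ?_, ?_⟩
  · intro D hD
    have e1 : g D = 0 := h1 D hD
    have e2 : g (insert j D) = 0 := by
      apply h1
      refine lt_of_lt_of_le hD ?_
      exact Finset.sum_le_sum_of_subset_of_nonneg (Finset.subset_insert _ _)
        (fun i _ _ => hw i)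
    funext x
    simp only [e1, e2]
    simp [av]
  · intro D
    have e1 : dep D (av μ j (g D)) := dep_av (dep_mono (Finset.subset_insert _ _) (h2 D))
    have e2 : dep D (av μ j (g (insert j D))) := dep_av (h2 _)
    intro x y hxy
    simp only
    rw [e1 x y hxy, e2 x y hxy]
  · intro x
    have e1 : F = fun x => ∑ D ∈ T.powerset, (g D x + g (insert j D) x) := by
      funext x
      rw [h3 x, Finset.sum_powerset_insert hj, Finset.sum_add_distrib]
    rw [e1, av_sum]
    apply Finset.sum_congr rfl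
    intro D _
    rw [av_add]

omit [Fintype ι] in
lemma dv_restrict {i j : ι} (h : i ≠ j) (F : (∀ i, Ω i) → ℝ) (b : Ω j) :
    dv μ i (fun x => F (Function.update x j b)) =
      fun x => dv μ i F (Function.update x j b) := by
  unfold dv
  rw [av_restrict h]

omit [Fintype ι] in
lemma Lev_dv (hμ : ∀ i, ∑ a, μ i a = 1) {w : ι → ℝ} {T : Finset ι} {j : ι}
    (hj : j ∉ T) {L : ℝ} {F : (∀ i, Ω i) → ℝ} (h : Lev w (insert j T) L F) (a : Ω j) :
    Lev w T (L - w j) (fun x => dv μ j F (Function.update x j a)) := by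
  obtain ⟨g, h1, h2, h3⟩ := h
  refine ⟨fun D x => if j ∈ D then 0 else dv μ j (g (insert j D)) (Function.update x j a),
    ?_, ?_, ?_⟩
  · intro D hD
    funext x
    simp only [Pi.zero_apply]
    split_ifs with hjD
    · rfl
    · have e2 : g (insert j D) = 0 := by
        apply h1
        rw [Finset.sum_insert hjD]
        linarith
      rw [e2]
      simp [dv, av]
  · intro D x y hxy
    simp only
    split_ifs with hjD
    · rfl
    · have e1 : dep (insert j D) (g (insert j D)) := h2 _
      have e2 : dep (insert j D) (dv μ j (g (insert j D))) := by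
        intro x y hxy
        unfold dv
        rw [e1 x y hxy, (dep_mono (Finset.subset_insert _ _) (dep_av e1)) x y hxy]
      apply e2
      intro i hi
      by_cases hij : i = j
      · subst hij; simp
      · rw [Function.update_of_ne hij, Function.update_of_ne hij]
        rcases Finset.mem_insert.mp hi with h1 | h1
        · exact absurd h1 hij
        · exact hxy i h1
  · intro x
    have e1 : F = fun x => ∑ D ∈ T.powerset, (g D x + g (insert j D) x) := by
      funext x
      rw [h3 x, Finset.sum_powerset_insert hj, Finset.sum_add_distrib]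
    have e2 : ∀ y, dv μ j F y = ∑ D ∈ T.powerset, dv μ j (g (insert j D)) y := by
      intro y
      unfold dv
      have e3 : av μ j F y = ∑ D ∈ T.powerset, (g D y + av μ j (g (insert j D)) y) := by
        conv_lhs => rw [e1, av_sum]
        simp only
        apply Finset.sum_congr rfl
        intro D hD
        rw [av_add]
        simp only
        congr 1
        have e4 : av μ j (g D) = g D := by
          apply av_of_indep hμ
          intro x a
          apply h2 D
          intro i hi
          have : i ≠ j := by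
            rintro rfl
            exact hj (Finset.mem_powerset.mp hD hi)
          rw [Function.update_of_ne this]
        rw [e4]
      rw [e3, e1, ← Finset.sum_sub_distrib]
      apply Finset.sum_congr rfl
      intro D _
      ring
    simp only
    rw [e2]
    apply Finset.sum_congr rfl
    intro D hD
    rw [if_neg (fun hjD => hj (Finset.mem_powerset.mp hD hjD))]

omit [Fintype ι] in
lemma Lev_empty_eq {w : ι → ℝ} {L : ℝ} {F : (∀ i, Ω i) → ℝ} (h : Lev w ∅ L F) :
    ∀ x y, F x = F y := by
  obtain ⟨g, _, h2, h3⟩ := h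
  intro x y
  rw [h3 x, h3 y]
  simp only [Finset.powerset_empty, Finset.sum_singleton]
  exact h2 ∅ x y (by simp)

omit [Fintype ι] in
lemma Lev_empty_neg {w : ι → ℝ} {L : ℝ} (hL : L < 0) {F : (∀ i, Ω i) → ℝ} (h : Lev w ∅ L F) :
    ∀ x, F x = 0 := by
  obtain ⟨g, h1, _, h3⟩ := h
  intro x
  rw [h3 x]
  simp only [Finset.powerset_empty, Finset.sum_singleton]
  rw [h1 ∅ (by simpa using hL)]
  rfl

end Pool.Agent.J4.H55.SQ
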