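import Pool.Agent.J4.H55.SQ.Final

set_option autoImplicit false
set_option linter.unusedSectionVars false

/-! # The limit of the square sieve for short intervals of shifts (helper55) -/

namespace Pool.Agent.J4.H55.SQ

open Finset Filter Topology

/-- bounds for the parameters -/
lemma params_aux {β C δ X Y l : ℝ} (hβ : 1 < β) (hδ : 0 < δ) (hX : 0 < X) (hY : Y = Real.log X)
    (hl : l = Real.log Y) (hl2 : 2 * Real.log 2 ≤ l) (hl1 : 1 ≤ l) (hlδ : 1 / δ ≤ l)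
    (hYb : 4 ≤ Y ^ β) (hYe : Y ^ β ≤ Real.sqrt X) (hY4 : 4 ≤ Y)
    (hlY : 4 * β * (|C| + 1) * l ≤ Y) (hYC : |C| * (1 / (2 * β) + δ) * Y ≤ Y ^ β / 2) :
    2 ≤ ⌊Y ^ β⌋₊ ∧ ⌊Y ^ β⌋₊ ≤ ⌊Real.sqrt X⌋₊ ∧
      C ≤ Real.log (⌊Real.sqrt X⌋₊ : ℝ) / Real.log (⌊Y ^ β⌋₊ : ℝ) ∧
      C * (Real.log (⌊Real.sqrt X⌋₊ : ℝ) / Real.log (⌊Y ^ β⌋₊ : ℝ) *
        Real.log (Real.log (⌊Real.sqrt X⌋₊ : ℝ) / Real.log (⌊Y ^ β⌋₊ : ℝ))) ≤
        (⌊Y ^ β⌋₊ : ℝ) ∧
      Real.log (⌊Real.sqrt X⌋₊ : ℝ) / Real.log (⌊Y ^ β⌋₊ : ℝ) *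
        Real.log (Real.log (⌊Real.sqrt X⌋₊ : ℝ) / Real.log (⌊Y ^ β⌋₊ : ℝ)) ≤
        (1 / (2 * β) + δ) * Y ∧
      Real.log (⌊Real.sqrt X⌋₊ : ℝ) / Real.log (⌊Y ^ β⌋₊ : ℝ) ≤ Y / l ∧
      0 < Real.log (⌊Real.sqrt X⌋₊ : ℝ) / Real.log (⌊Y ^ β⌋₊ : ℝ) := by
  have hlog2 : 0 < Real.log 2 := Real.log_pos (by norm_num)
  have hlog2' : Real.log 2 < 1 := by
    have := Real.log_two_lt_d9; linarith
  have hY0 : 0 < Y := by linarith
  set z : ℕ := ⌊Y ^ β⌋₊ with hz
  set R : ℕ := ⌊Real.sqrt X⌋₊ with hR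
  have hz1 : Y ^ β - 1 < z := Nat.sub_one_lt_floor _
  have hz2 : (z : ℝ) ≤ Y ^ β := Nat.floor_le (by linarith)
  have hR1 : Real.sqrt X - 1 < R := Nat.sub_one_lt_floor _
  have hR2 : (R : ℝ) ≤ Real.sqrt X := Nat.floor_le (Real.sqrt_nonneg X)
  have hsX : 4 ≤ Real.sqrt X := by linarith
  have hlsX : Real.log (Real.sqrt X) = Y / 2 := by rw [Real.log_sqrt hX.le, hY]
  have hz3 : Y ^ β / 2 ≤ z := by linarith
  have hz0 : (0:ℝ) < z := by linarith
  have hR3 : Real.sqrt X / 2 ≤ R := by linarith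
  have hR0 : (0:ℝ) < R := by linarith
  have hlz1 : β * l - Real.log 2 ≤ Real.log z := by
    have h1 := Real.log_le_log (by linarith) hz3
    rw [Real.log_div (by linarith) (by norm_num), Real.log_rpow hY0, ← hl] at h1
    exact h1
  have hlz2 : Real.log z ≤ β * l := by
    have h1 := Real.log_le_log hz0 hz2
    rwa [Real.log_rpow hY0, ← hl] at h1
  have hlR1 : Y / 4 ≤ Real.log R := by
    have h1 := Real.log_le_log (by linarith) hR3
    rw [Real.log_div (by linarith) (by norm_num), hlsX] at h1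
    linarith
  have hlR2 : Real.log R ≤ Y / 2 := by
    rw [← hlsX]; exact Real.log_le_log hR0 hR2
  have hβl : l / 2 ≤ β * l - Real.log 2 := by
    have : l ≤ β * l := by
      have := mul_le_mul_of_nonneg_right hβ.le (by linarith : (0:ℝ) ≤ l)
      linarith
    linarith
  have hlz0 : 0 < Real.log z := by linarith
  have hlR0 : 0 < Real.log R := by linarith
  set A : ℝ := Real.log R / Real.log z with hA
  have hA0 : 0 < A := by positivity
  have hβl0 : 0 < β * l := by positivity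
  have hA1 : |C| + 1 ≤ A := by
    rw [hA, le_div_iff₀ hlz0]
    have h1 : (|C| + 1) * Real.log z ≤ (|C| + 1) * (β * l) :=
      mul_le_mul_of_nonneg_left hlz2 (by positivity)
    have h2 : (|C| + 1) * (β * l) ≤ Y / 4 := by
      have : 4 * β * (|C| + 1) * l = 4 * ((|C| + 1) * (β * l)) := by ring
      linarith
    linarith
  have hA2 : A ≤ Y / l := by
    rw [hA, div_le_div_iff₀ hlz0 (by linarith)]
    have h1 : Real.log R * l ≤ Y / 2 * l := mul_le_mul_of_nonneg_right hlR2 (by linarith)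
    have h2 : Y * (l / 2) ≤ Y * Real.log z := mul_le_mul_of_nonneg_left (by linarith) hY0.le
    linarith
  have hAY : A ≤ Y := by
    refine hA2.trans ?_
    rw [div_le_iff₀ (by linarith)]
    have := mul_le_mul_of_nonneg_left hl1 hY0.le
    linarith
  have hlA : Real.log A ≤ l := by
    rw [hl]; exact Real.log_le_log hA0 hAY
  have hlA0 : 0 ≤ Real.log A := by
    apply Real.log_nonneg
    have := abs_nonneg C
    linarith
  have hAlA : A * Real.log A ≤ (1 / (2 * β) + δ) * Y := by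
    have h1 : A * Real.log A ≤ A * l := mul_le_mul_of_nonneg_left hlA hA0.le
    refine h1.trans ?_
    rw [hA, div_mul_eq_mul_div, div_le_iff₀ hlz0]
    have h2 : Real.log R * l ≤ Y / 2 * l := mul_le_mul_of_nonneg_right hlR2 (by linarith)
    refine h2.trans ?_
    have h3 : (1 / (2 * β) + δ) * Y * (β * l - Real.log 2) ≤
        (1 / (2 * β) + δ) * Y * Real.log z :=
      mul_le_mul_of_nonneg_left hlz1 (by positivity)
    refine le_trans ?_ h3
    have h4 : l / 2 ≤ (1 / (2 * β) + δ) * (β * l - Real.log 2) := by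
      have e1 : (1 / (2 * β) + δ) * (β * l - Real.log 2) =
          l / 2 - Real.log 2 / (2 * β) + δ * (β * l - Real.log 2) := by
        field_simp
      rw [e1]
      have h5 : δ * (l / 2) ≤ δ * (β * l - Real.log 2) := mul_le_mul_of_nonneg_left hβl hδ.le
      have h6 : 1 ≤ δ * l := by
        rw [div_le_iff₀ hδ] at hlδ; linarith
      have h7 : Real.log 2 / (2 * β) ≤ 1 / 2 := by
        rw [div_le_div_iff₀ (by positivity) (by norm_num)]
        nlinarith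
      linarith
    have h5 := mul_le_mul_of_nonneg_left h4 hY0.le
    linarith
  refine ⟨?_, ?_, ?_, ?_, hAlA, hA2, hA0⟩
  · have : (2:ℝ) ≤ z := by linarith
    exact_mod_cast this
  · exact Nat.floor_le_floor hYe
  · have := le_abs_self C
    linarith
  · have h1 : C * (A * Real.log A) ≤ |C| * (A * Real.log A) :=
      mul_le_mul_of_nonneg_right (le_abs_self C) (by positivity)
    have h2 : |C| * (A * Real.log A) ≤ |C| * ((1 / (2 * β) + δ) * Y) :=
      mul_le_mul_of_nonneg_left hAlA (abs_nonneg C)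
    have h3 : |C| * ((1 / (2 * β) + δ) * Y) = |C| * (1 / (2 * β) + δ) * Y := by ring
    linarith

/-- asymptotics of the parameters -/
lemma params (β : ℝ) (hβ : 1 < β) (C : ℝ) (δ : ℝ) (hδ : 0 < δ) :
    ∀ᶠ X : ℝ in atTop, 2 ≤ ⌊(Real.log X) ^ β⌋₊ ∧ ⌊(Real.log X) ^ β⌋₊ ≤ ⌊Real.sqrt X⌋₊ ∧
      C ≤ Real.log (⌊Real.sqrt X⌋₊ : ℝ) / Real.log (⌊(Real.log X) ^ β⌋₊ : ℝ) ∧
      C * (Real.log (⌊Real.sqrt X⌋₊ : ℝ) / Real.log (⌊(Real.log X) ^ β⌋₊ : ℝ) *
        Real.log (Real.log (⌊Real.sqrt X⌋₊ : ℝ) / Real.log (⌊(Real.log X) ^ β⌋₊ : ℝ))) ≤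
        (⌊(Real.log X) ^ β⌋₊ : ℝ) ∧
      Real.log (⌊Real.sqrt X⌋₊ : ℝ) / Real.log (⌊(Real.log X) ^ β⌋₊ : ℝ) *
        Real.log (Real.log (⌊Real.sqrt X⌋₊ : ℝ) / Real.log (⌊(Real.log X) ^ β⌋₊ : ℝ)) ≤
        (1 / (2 * β) + δ) * Real.log X ∧
      Real.log (⌊Real.sqrt X⌋₊ : ℝ) / Real.log (⌊(Real.log X) ^ β⌋₊ : ℝ) ≤
        Real.log X / Real.log (Real.log X) ∧
      0 < Real.log (⌊Real.sqrt X⌋₊ : ℝ) / Real.log (⌊(Real.log X) ^ β⌋₊ : ℝ) ∧
      1 ≤ Real.log (Real.log X) ∧ 0 < Real.log X := by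
  have T1 : Tendsto (fun X : ℝ => Real.log X) atTop atTop := Real.tendsto_log_atTop
  have T2 : Tendsto (fun X : ℝ => Real.log (Real.log X)) atTop atTop :=
    Real.tendsto_log_atTop.comp T1
  have T3 : Tendsto (fun X : ℝ => (Real.log X) ^ β) atTop atTop :=
    (tendsto_rpow_atTop (by linarith)).comp T1
  have T4 : Tendsto (fun X : ℝ => (Real.log X) ^ (β - 1)) atTop atTop :=
    (tendsto_rpow_atTop (by linarith)).comp T1
  have E1 : ∀ᶠ Y : ℝ in atTop, Y ^ β * Real.exp (-(1 / 2) * Y) ≤ 1 :=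
    ((tendsto_rpow_mul_exp_neg_mul_atTop_nhds_zero β (1 / 2) (by norm_num)).eventually
      (Iio_mem_nhds one_pos)).mono (fun Y hY => le_of_lt hY)
  have E2 : ∀ᶠ Y : ℝ in atTop, 4 * β * (|C| + 1) * Real.log Y ≤ Y := by
    have h1 := Real.isLittleO_log_id_atTop.def (c := 1 / (4 * β * (|C| + 1))) (by positivity)
    filter_upwards [h1, eventually_ge_atTop (1:ℝ)] with Y hY hY1
    have h2 : 0 ≤ Real.log Y := Real.log_nonneg hY1
    simp only [id, Real.norm_eq_abs, abs_of_nonneg h2,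
      abs_of_nonneg (by linarith : (0:ℝ) ≤ Y)] at hY
    rw [div_mul_eq_mul_div, one_mul, le_div_iff₀ (by positivity)] at hY
    linarith
  filter_upwards [eventually_gt_atTop (0:ℝ), T2.eventually (eventually_ge_atTop (2 * Real.log 2)),
    T2.eventually (eventually_ge_atTop 1), T2.eventually (eventually_ge_atTop (1 / δ)),
    T3.eventually (eventually_ge_atTop 4), T1.eventually E1, T1.eventually (eventually_ge_atTop 4),
    T1.eventually E2, T4.eventually (eventually_ge_atTop (2 * (|C| * (1 / (2 * β) + δ))))]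
    with X h0 h1 h2 h3 h4 h5 h6 h7 h8
  have hYe : (Real.log X) ^ β ≤ Real.sqrt X := by
    have e1 : Real.sqrt X = Real.exp ((1 / 2) * Real.log X) := by
      rw [← Real.exp_log (Real.sqrt_pos.mpr h0), Real.log_sqrt h0.le]
      ring_nf
    rw [e1]
    have e2 : Real.exp ((1 / 2) * Real.log X) * Real.exp (-(1 / 2) * Real.log X) = 1 := by
      rw [← Real.exp_add]; simp
    have e3 : 0 < Real.exp ((1 / 2) * Real.log X) := Real.exp_pos _
    have e4 := mul_le_mul_of_nonneg_left h5 e3.le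
    have e5 : Real.exp ((1 / 2) * Real.log X) *
        ((Real.log X) ^ β * Real.exp (-(1 / 2) * Real.log X)) = (Real.log X) ^ β := by
      calc _ = (Real.log X) ^ β *
          (Real.exp ((1 / 2) * Real.log X) * Real.exp (-(1 / 2) * Real.log X)) := by ring
        _ = _ := by rw [e2, mul_one]
    rw [e5] at e4
    linarith
  have hYC : |C| * (1 / (2 * β) + δ) * Real.log X ≤ (Real.log X) ^ β / 2 := by
    have hpos : 0 < Real.log X := by linarith
    have e1 : (Real.log X) ^ β = (Real.log X) ^ (β - 1) * Real.log X := by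
      rw [← Real.rpow_add_one hpos.ne']; ring_nf
    rw [e1]
    have := mul_le_mul_of_nonneg_right h8 hpos.le
    linarith
  obtain ⟨a1, a2, a3, a4, a5, a6, a7⟩ := params_aux (C := C) hβ hδ h0 rfl rfl h1 h2 h3 h4 hYe h6 h7 hYC
  exact ⟨a1, a2, a3, a4, a5, a6, a7, h2, by linarith⟩

/-- **Limit of the square sieve for short intervals of shifts.** -/
theorem limit_short (β : ℝ) (hβ : 1 < β) (ε : ℝ) (hε : 0 < ε) : ∃ c : ℝ, 0 < c ∧ ∃ X₀ : ℝ,
    ∀ X : ℝ, X₀ ≤ X → ∀ H : Finset ℤ, (∀ h ∈ H, 1 ≤ h ∧ (h : ℝ) ≤ (Real.log X) ^ β) →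
      (Real.exp (-Real.eulerMascheroniConstant) / (2 * β) + ε) * Real.log X ≤ H.card →
    ∀ V : ℤ → ℝ, HasLevel ⌊(Real.log X) ^ β⌋₊ ⌊Real.sqrt X⌋₊ V →
      c * Real.log (Real.log X) *
        ∑ n ∈ Finset.Ico (0:ℤ) (PP ⌊(Real.log X) ^ β⌋₊ ⌊Real.sqrt X⌋₊), (V n) ^ 2 ≤
      ∑ n ∈ Finset.Ico (0:ℤ) (PP ⌊(Real.log X) ^ β⌋₊ ⌊Real.sqrt X⌋₊), (V n) ^ 2 *
        ((H.filter (fun h => Int.gcd (n + h)
          (PP ⌊(Real.log X) ^ β⌋₊ ⌊Real.sqrt X⌋₊) = 1)).card : ℝ) := by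
  set e : ℝ := Real.exp (-Real.eulerMascheroniConstant) with he
  have he0 : 0 < e := Real.exp_pos _
  have he1 : e < 1 := exp_neg_gamma_lt_one
  -- choose `δ` with `(e + δ) (1/(2β) + δ) ≤ e/(2β) + ε`
  set δ : ℝ := min (ε / 3) 1 with hδ
  have hδ0 : 0 < δ := lt_min (by positivity) one_pos
  have hδ1 : δ ≤ 1 := min_le_right _ _
  have hδε : δ ≤ ε / 3 := min_le_left _ _
  have hδ2 : (e + δ) * (1 / (2 * β) + δ) ≤ e / (2 * β) + ε := by
    have h1 : (e + δ) * (1 / (2 * β) + δ) = e / (2 * β) + δ * (e + δ + 1 / (2 * β)) := by ring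
    have h2 : 1 / (2 * β) ≤ 1 := by
      rw [div_le_one (by linarith)]; linarith
    have h3 : δ * (e + δ + 1 / (2 * β)) ≤ δ * 3 := mul_le_mul_of_nonneg_left (by linarith) hδ0.le
    rw [h1]
    linarith
  obtain ⟨c, hc, C, hC, hlim⟩ := limit δ hδ0
  obtain ⟨X₀, hX₀⟩ := eventually_atTop.mp (params β hβ C δ hδ0)
  refine ⟨c * ε, by positivity, X₀, ?_⟩
  intro X hX H hH hK V hV
  obtain ⟨h1, h2, h3, h4, h5, h6, h7, h8, h9⟩ := hX₀ X hX
  set z : ℕ := ⌊(Real.log X) ^ β⌋₊ with hz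
  set R : ℕ := ⌊Real.sqrt X⌋₊ with hR
  set A : ℝ := Real.log R / Real.log z with hA
  have hinc : ∀ p ∈ PR z R, ∀ h ∈ H, ∀ h' ∈ H, h ≠ h' → ¬ (p : ℤ) ∣ h - h' := by
    intro p hp h hh h' hh' hne hdvd
    have hzp : z < p := (mem_PR.mp hp).1.1
    have hbound : ∀ g ∈ H, 1 ≤ g ∧ g ≤ z := by
      intro g hg
      obtain ⟨g1, g2⟩ := hH g hg
      refine ⟨g1, ?_⟩
      have g3 : ((g.toNat : ℕ) : ℝ) ≤ (Real.log X) ^ β := by
        have : ((g.toNat : ℕ) : ℤ) = g := Int.toNat_of_nonneg (by omega)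
        have h' : ((g.toNat : ℕ) : ℝ) = (g : ℝ) := by exact_mod_cast congrArg (Int.cast (R := ℝ)) this
        rw [h']; exact g2
      have g4 : g.toNat ≤ z := Nat.le_floor g3
      omega
    obtain ⟨b1, b2⟩ := hbound h hh
    obtain ⟨b3, b4⟩ := hbound h' hh'
    have h10 : h - h' = 0 := by
      apply Int.eq_zero_of_abs_lt_dvd hdvd
      rw [abs_lt]
      constructor <;> omega
    omega
  have hKA : (e + δ) * (A * Real.log A) ≤ H.card := by
    refine le_trans ?_ hK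
    have h10 : (e + δ) * (A * Real.log A) ≤ (e + δ) * ((1 / (2 * β) + δ) * Real.log X) :=
      mul_le_mul_of_nonneg_left h5 (by positivity)
    refine h10.trans ?_
    have := mul_le_mul_of_nonneg_right hδ2 h9.le
    linarith
  have h11 := hlim z R h1 h2 h3 h4 H hinc hKA V hV
  refine le_trans ?_ h11
  have hV0 : 0 ≤ ∑ n ∈ Finset.Ico (0:ℤ) (PP z R), (V n) ^ 2 :=
    Finset.sum_nonneg (fun n _ => sq_nonneg _)
  apply mul_le_mul_of_nonneg_right _ hV0
  rw [mul_assoc]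
  apply mul_le_mul_of_nonneg_left _ hc.le
  rw [le_div_iff₀ h7]
  have h12 : ε * Real.log X ≤ H.card := by
    refine le_trans ?_ hK
    apply mul_le_mul_of_nonneg_right _ h9.le
    have : 0 ≤ e / (2 * β) := by positivity
    linarith
  refine le_trans ?_ h12
  have h13 : ε * Real.log (Real.log X) * A ≤
      ε * Real.log (Real.log X) * (Real.log X / Real.log (Real.log X)) :=
    mul_le_mul_of_nonneg_left h6 (by positivity)
  refine h13.trans (le_of_eq ?_)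
  field_simp

end Pool.Agent.J4.H55.SQ
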