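import Pool.Agent.J4.H55.SQ.Ind

set_option autoImplicit false
set_option linter.unusedSectionVars false

/-! # Uniform points as mixtures of points avoiding one residue vector (helper55) -/

namespace Pool.Agent.J4.H55.SQ

open Finset

variable {ι : Type} [Fintype ι] [DecidableEq ι] {Ω : ι → Type} [∀ i, Fintype (Ω i)]
  [∀ i, DecidableEq (Ω i)]

/-- push-forward of a product weight under a coordinatewise map -/
lemma push {Y : ι → Type} [∀ i, Fintype (Y i)] (ρ : ∀ i, Y i → ℝ) (m : ∀ i, Y i → Ω i)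
    (Φ : (∀ i, Ω i) → ℝ) :
    ∑ y : ∀ i, Y i, (∏ i, ρ i (y i)) * Φ (fun i => m i (y i)) =
      ∑ x : ∀ i, Ω i, (∏ i, ∑ c with m i c = x i, ρ i c) * Φ x := by
  classical
  rw [← Finset.sum_fiberwise univ (fun y : ∀ i, Y i => (fun i => m i (y i)))]
  apply Finset.sum_congr rfl
  intro x _
  rw [Finset.prod_univ_sum, Finset.sum_mul]
  apply Finset.sum_congr
  · ext y
    simp only [mem_filter, mem_univ, true_and, Fintype.mem_piFinset]
    exact funext_iff
  · intro y hy
    rw [Fintype.mem_piFinset] at hy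
    have : (fun i => m i (y i)) = x := by
      funext i
      exact (Finset.mem_filter.mp (hy i)).2
    rw [this]

/-- the uniform weight -/
noncomputable def UU (Ω : ι → Type) [∀ i, Fintype (Ω i)] (i : ι) (_ : Ω i) : ℝ :=
  1 / (Fintype.card (Ω i) : ℝ)

/-- the uniform weight on the complement of a point -/
noncomputable def NU (r : ∀ i, Ω i) (i : ι) (a : Ω i) : ℝ :=
  if a = r i then 0 else 1 / ((Fintype.card (Ω i) : ℝ) - 1)

/-- the biased weight on the cube -/
noncomputable def PI (Ω : ι → Type) [∀ i, Fintype (Ω i)] (i : ι) (b : Bool) : ℝ :=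
  if b then 1 / (Fintype.card (Ω i) : ℝ) else 1 - 1 / (Fintype.card (Ω i) : ℝ)

/-- replacing the coordinates in `D` by those of `r` -/
def mix (r ω : ∀ i, Ω i) (D : ι → Bool) (i : ι) : Ω i := if D i then r i else ω i

lemma UU_sum (hN : ∀ i, 2 ≤ Fintype.card (Ω i)) (i : ι) : ∑ a, UU Ω i a = 1 := by
  unfold UU
  rw [Finset.sum_const, Finset.card_univ, nsmul_eq_mul]
  have := hN i
  have h : (Fintype.card (Ω i) : ℝ) ≠ 0 := by
    have : Fintype.card (Ω i) ≠ 0 := by omega
    exact_mod_cast this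
  field_simp

lemma UU_nonneg (i : ι) (a : Ω i) : 0 ≤ UU Ω i a := by unfold UU; positivity

lemma card_real (hN : ∀ i, 2 ≤ Fintype.card (Ω i)) (i : ι) : (2:ℝ) ≤ (Fintype.card (Ω i) : ℝ) := by
  exact_mod_cast hN i

lemma NU_sum (hN : ∀ i, 2 ≤ Fintype.card (Ω i)) (r : ∀ i, Ω i) (i : ι) : ∑ a, NU r i a = 1 := by
  have h2 := card_real hN i
  unfold NU
  rw [← Finset.add_sum_erase univ _ (mem_univ (r i)), if_pos rfl, zero_add]
  rw [Finset.sum_congr rfl (g := fun _ => 1 / ((Fintype.card (Ω i) : ℝ) - 1))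
    (fun a ha => by rw [if_neg (Finset.ne_of_mem_erase ha)])]
  rw [Finset.sum_const, Finset.card_erase_of_mem (mem_univ _), Finset.card_univ, nsmul_eq_mul]
  have : 1 ≤ Fintype.card (Ω i) := by have := hN i; omega
  rw [Nat.cast_sub this, Nat.cast_one]
  have : (Fintype.card (Ω i) : ℝ) - 1 ≠ 0 := by linarith
  field_simp

lemma NU_nonneg (hN : ∀ i, 2 ≤ Fintype.card (Ω i)) (r : ∀ i, Ω i) (i : ι) (a : Ω i) :
    0 ≤ NU r i a := by
  have h2 := card_real hN i
  unfold NU
  split_ifs
  · exact le_rfl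
  · apply div_nonneg zero_le_one; linarith

lemma PI_sum (i : ι) : ∑ b, PI Ω i b = 1 := by
  unfold PI
  rw [Fintype.sum_bool]
  simp

lemma PI_nonneg (hN : ∀ i, 2 ≤ Fintype.card (Ω i)) (i : ι) (b : Bool) : 0 ≤ PI Ω i b := by
  have h2 := card_real hN i
  have h3 : 1 / (Fintype.card (Ω i) : ℝ) ≤ 1 := by
    rw [div_le_one (by linarith)]; linarith
  unfold PI
  split_ifs
  · positivity
  · linarith

/-- pairs of functions as functions to pairs -/
def prEquiv (A : ι → Type) (B : Type) : ((∀ i, A i) × (ι → B)) ≃ (∀ i, A i × B) where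
  toFun y i := (y.1 i, y.2 i)
  invFun y := (fun i => (y i).1, fun i => (y i).2)
  left_inv _ := rfl
  right_inv _ := rfl

/-- a uniform point is a mixture -/
theorem couple (hN : ∀ i, 2 ≤ Fintype.card (Ω i)) (r : ∀ i, Ω i) (Φ : (∀ i, Ω i) → ℝ) :
    EE (NU r) (fun ω => EE (PI Ω) (fun D => Φ (mix r ω D))) = EE (UU Ω) Φ := by
  have h1 : EE (NU r) (fun ω => EE (PI Ω) (fun D => Φ (mix r ω D))) =
      ∑ y : (∀ i, Ω i) × (ι → Bool), (∏ i, (NU r i (y.1 i) * PI Ω i (y.2 i))) *
        Φ (mix r y.1 y.2) := by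
    unfold EE
    rw [Fintype.sum_prod_type]
    apply Finset.sum_congr rfl
    intro ω _
    rw [Finset.mul_sum]
    apply Finset.sum_congr rfl
    intro D _
    rw [Finset.prod_mul_distrib]
    ring
  have h2 : ∑ y : (∀ i, Ω i) × (ι → Bool), (∏ i, (NU r i (y.1 i) * PI Ω i (y.2 i))) *
        Φ (mix r y.1 y.2) =
      ∑ y : (∀ i, Ω i × Bool), (∏ i, (NU r i (y i).1 * PI Ω i (y i).2)) *
        Φ (fun i => if (y i).2 then r i else (y i).1) :=
    Fintype.sum_equiv (prEquiv Ω Bool) _ _ (fun y => rfl)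
  rw [h1, h2, push (Y := fun i => Ω i × Bool) (fun i c => NU r i c.1 * PI Ω i c.2)
    (fun i c => if c.2 then r i else c.1) Φ]
  unfold EE
  apply Finset.sum_congr rfl
  intro x _
  congr 1
  apply Finset.prod_congr rfl
  intro i _
  have h3 := card_real hN i
  rw [Finset.sum_filter, Fintype.sum_prod_type_right, Fintype.sum_bool]
  simp only [if_true, Bool.false_eq_true, if_false]
  have e1 : ∑ a : Ω i, (if r i = x i then NU r i a * PI Ω i true else 0) =
      if r i = x i then PI Ω i true else 0 := by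
    split_ifs
    · rw [← Finset.sum_mul, NU_sum hN, one_mul]
    · simp
  have e2 : ∑ a : Ω i, (if a = x i then NU r i a * PI Ω i false else 0) =
      NU r i (x i) * PI Ω i false := by
    rw [Finset.sum_ite_eq' univ (x i)]
    simp
  rw [e1, e2]
  unfold NU PI UU
  simp only [if_true, Bool.false_eq_true, if_false]
  by_cases hx : r i = x i
  · rw [if_pos hx, if_pos hx.symm]
    simp
  · rw [if_neg hx, if_neg (fun h => hx h.symm)]
    have e3 : (Fintype.card (Ω i) : ℝ) - 1 ≠ 0 := by linarith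
    have e4 : (Fintype.card (Ω i) : ℝ) ≠ 0 := by linarith
    field_simp
    ring

/-- the variance on the cube in terms of the uniform measure -/
theorem couple_dv (hN : ∀ i, 2 ≤ Fintype.card (Ω i)) (r : ∀ i, Ω i) (V : (∀ i, Ω i) → ℝ) (i : ι) :
    EE (NU r) (fun ω => EE (PI Ω) (fun D => (dv (PI Ω) i (fun D' => V (mix r ω D')) D) ^ 2)) =
      EE (UU Ω) (fun x => 1 / (Fintype.card (Ω i) : ℝ) *
        (V (Function.update x i (r i)) - V x) ^ 2) := by
  rw [← couple hN r]
  congr 1
  funext ω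
  set q : ℝ := 1 / (Fintype.card (Ω i) : ℝ) with hq
  set u : (ι → Bool) → ℝ := fun D' => V (mix r ω D') with hu
  rw [← EE_av (PI_sum (Ω := Ω)) i (fun D => (dv (PI Ω) i u D) ^ 2)]
  rw [← EE_av (PI_sum (Ω := Ω)) i (fun D => q * (V (Function.update (mix r ω D) i (r i)) -
    V (mix r ω D)) ^ 2)]
  congr 1
  funext D
  have hu1 : ∀ b : Bool, dv (PI Ω) i u (Function.update D i b) =
      u (Function.update D i b) - (q * u (Function.update D i true) +
        (1 - q) * u (Function.update D i false)) := by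
    intro b
    unfold dv
    rw [av_update]
    unfold av
    rw [Fintype.sum_bool]
    simp only [PI, if_true, Bool.false_eq_true, if_false]
    rfl
  have hm1 : Function.update (mix r ω (Function.update D i true)) i (r i) =
      mix r ω (Function.update D i true) := by
    funext l
    by_cases hl : l = i
    · subst hl; simp [mix]
    · rw [Function.update_of_ne hl]
  have hm2 : Function.update (mix r ω (Function.update D i false)) i (r i) =
      mix r ω (Function.update D i true) := by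
    funext l
    by_cases hl : l = i
    · subst hl; simp [mix]
    · rw [Function.update_of_ne hl]
      unfold mix
      rw [Function.update_of_ne hl, Function.update_of_ne hl]
  change ∑ b, PI Ω i b * (dv (PI Ω) i u (Function.update D i b)) ^ 2 =
    ∑ b, PI Ω i b * (q * (V (Function.update (mix r ω (Function.update D i b)) i (r i)) -
    V (mix r ω (Function.update D i b))) ^ 2)
  rw [Fintype.sum_bool, Fintype.sum_bool, hu1, hu1, hm1, hm2]
  simp only [PI, if_true, Bool.false_eq_true, if_false]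
  rw [← hq]
  have e1 : V (mix r ω (Function.update D i true)) = u (Function.update D i true) := rfl
  have e2 : V (mix r ω (Function.update D i false)) = u (Function.update D i false) := rfl
  rw [e1, e2]
  ring

/-- the level of the function on the cube -/
lemma Lev_mix {w : ι → ℝ} {T : Finset ι} {L : ℝ} {V : (∀ i, Ω i) → ℝ} (h : Lev w T L V)
    (r ω : ∀ i, Ω i) : Lev (Ω := fun _ => Bool) w T L (fun D => V (mix r ω D)) := by
  obtain ⟨g, h1, h2, h3⟩ := h
  refine ⟨fun S D => g S (mix r ω D), ?_, ?_, ?_⟩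
  · intro S hS
    funext D
    simp only [h1 S hS]
    rfl
  · intro S D E hDE
    apply h2 S
    intro i hi
    unfold mix
    rw [hDE i hi]
  · intro D
    exact h3 _

/-- the one-coordinate inequality -/
lemma one_coord {α κ : Type} [Fintype α] [Fintype κ] [DecidableEq α] (N : ℝ)
    (hN : N = Fintype.card α) (hN0 : 0 < N) (f : α → ℝ) (ρ : κ → α) (hρ : Function.Injective ρ) :
    ∑ k, ∑ a, 1 / N * (1 / N * (f (ρ k) - f a) ^ 2) ≤
      (1 + (Fintype.card κ : ℝ) / N) * ∑ a, 1 / N * (f a - ∑ b, 1 / N * f b) ^ 2 := by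
  set m : ℝ := ∑ b, 1 / N * f b with hm
  have hs : ∑ a, (f a - m) = 0 := by
    rw [Finset.sum_sub_distrib, Finset.sum_const, Finset.card_univ, nsmul_eq_mul, ← hN, hm,
      ← Finset.mul_sum]
    field_simp
    ring
  set W : ℝ := ∑ a, (f a - m) ^ 2 with hW
  have h1 : ∀ k, ∑ a, 1 / N * (1 / N * (f (ρ k) - f a) ^ 2) =
      1 / N * (f (ρ k) - m) ^ 2 + 1 / N ^ 2 * W := by
    intro k
    have e1 : ∀ a, 1 / N * (1 / N * (f (ρ k) - f a) ^ 2) =
        1 / N ^ 2 * (f (ρ k) - m) ^ 2 + 1 / N ^ 2 * (f a - m) ^ 2 -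
          2 / N ^ 2 * (f (ρ k) - m) * (f a - m) := by
      intro a; field_simp; ring
    rw [Finset.sum_congr rfl (fun a _ => e1 a), Finset.sum_sub_distrib, Finset.sum_add_distrib,
      ← Finset.mul_sum, ← Finset.mul_sum, ← Finset.mul_sum, hs, Finset.sum_const, Finset.card_univ, nsmul_eq_mul,
      ← hN]
    field_simp
    ring
  rw [Finset.sum_congr rfl (fun k _ => h1 k), Finset.sum_add_distrib, Finset.sum_const,
    Finset.card_univ, nsmul_eq_mul]
  have h2 : ∑ k, 1 / N * (f (ρ k) - m) ^ 2 ≤ 1 / N * W := by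
    rw [← Finset.mul_sum]
    apply mul_le_mul_of_nonneg_left _ (by positivity)
    rw [hW, ← Finset.sum_image (f := fun a => (f a - m) ^ 2) (g := ρ) (s := univ)
      (fun x _ y _ h => hρ h)]
    exact Finset.sum_le_sum_of_subset_of_nonneg (Finset.subset_univ _)
      (fun a _ _ => sq_nonneg _)
  have h3 : ∑ a, 1 / N * (f a - m) ^ 2 = 1 / N * W := by rw [← Finset.mul_sum]
  rw [h3]
  have h4 : (1 + (Fintype.card κ : ℝ) / N) * (1 / N * W) =
      1 / N * W + (Fintype.card κ : ℝ) * (1 / N ^ 2 * W) := by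
    field_simp
  rw [h4]
  linarith

/-- sum over the shifts of the variances -/
theorem sum_couple (hN : ∀ i, 2 ≤ Fintype.card (Ω i)) {κ : Type} [Fintype κ]
    (r : κ → ∀ i, Ω i) (hr : ∀ i, Function.Injective (fun k => r k i))
    (V : (∀ i, Ω i) → ℝ) (i : ι) :
    ∑ k, EE (UU Ω) (fun x => 1 / (Fintype.card (Ω i) : ℝ) *
        (V (Function.update x i (r k i)) - V x) ^ 2) ≤
      (1 + (Fintype.card κ : ℝ) / Fintype.card (Ω i)) *
        EE (UU Ω) (fun x => (dv (UU Ω) i V x) ^ 2) := by
  have h2 := card_real hN i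
  have hk : ∀ k, EE (UU Ω) (fun x => 1 / (Fintype.card (Ω i) : ℝ) *
        (V (Function.update x i (r k i)) - V x) ^ 2) =
      EE (UU Ω) (fun x => ∑ a, 1 / (Fintype.card (Ω i) : ℝ) * (1 / (Fintype.card (Ω i) : ℝ) *
        (V (Function.update x i (r k i)) - V (Function.update x i a)) ^ 2)) := by
    intro k
    rw [← EE_av (UU_sum hN) i]
    congr 1
    funext x
    unfold av UU
    apply Finset.sum_congr rfl
    intro a _
    simp only [Function.update_idem]
  rw [Finset.sum_congr rfl (fun k _ => hk k), ← EE_sum, ← EE_av (UU_sum hN) i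
    (fun x => (dv (UU Ω) i V x) ^ 2), ← EE_mul]
  apply EE_mono (UU_nonneg)
  intro x
  have h3 := one_coord (α := Ω i) (κ := κ) (Fintype.card (Ω i) : ℝ) rfl (by linarith)
    (fun a => V (Function.update x i a)) (fun k => r k i) (hr i)
  refine h3.trans (le_of_eq ?_)
  congr 1
  unfold av
  apply Finset.sum_congr rfl
  intro a _
  have : dv (UU Ω) i V (Function.update x i a) = V (Function.update x i a) -
      ∑ b, 1 / (Fintype.card (Ω i) : ℝ) * V (Function.update x i b) := by
    unfold dv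
    rw [av_update]
    rfl
  simp only [this]
  rfl

/-- restriction to the points avoiding `r` -/
theorem avoid (hN : ∀ i, 2 ≤ Fintype.card (Ω i)) (r : ∀ i, Ω i) (F : (∀ i, Ω i) → ℝ) :
    EE (UU Ω) (fun x => if ∀ i, x i ≠ r i then F x else 0) =
      (∏ i, (1 - 1 / (Fintype.card (Ω i) : ℝ))) * EE (NU r) F := by
  unfold EE
  rw [Finset.mul_sum]
  apply Finset.sum_congr rfl
  intro x _
  simp only
  split_ifs with hx
  · rw [← mul_assoc, ← Finset.prod_mul_distrib]
    congr 1
    apply Finset.prod_congr rfl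
    intro i _
    unfold UU NU
    rw [if_neg (hx i)]
    have h2 := card_real hN i
    have e3 : (Fintype.card (Ω i) : ℝ) - 1 ≠ 0 := by linarith
    have e4 : (Fintype.card (Ω i) : ℝ) ≠ 0 := by linarith
    field_simp
  · push Not at hx
    obtain ⟨i, hi⟩ := hx
    have : ∏ i, NU r i (x i) = 0 := by
      apply Finset.prod_eq_zero (mem_univ i)
      unfold NU
      rw [if_pos hi]
    rw [this]
    simp

end Pool.Agent.J4.H55.SQ
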