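import Pool.Agent.J4.H55.SQ.Main

set_option autoImplicit false
set_option linter.unusedSectionVars false

/-! # From residues modulo a product of primes to product spaces (helper55) -/

namespace Pool.Agent.J4.H55.SQ

open Finset

/-- The primes `p` with `z < p ≤ R`. -/
def PR (z R : ℕ) : Finset ℕ := (Finset.Ioc z R).filter Nat.Prime

/-- The product of the primes `p` with `z < p ≤ R`. -/
def PP (z R : ℕ) : ℕ := ∏ p ∈ PR z R, p

/-- `V` is a function of level `R` for the primes in `(z, R]`: a sum, over the divisors `d ≤ R` of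
the product of these primes, of functions periodic modulo `d`. -/
def HasLevel (z R : ℕ) (V : ℤ → ℝ) : Prop :=
  ∃ g : ℕ → ℤ → ℝ, (∀ d n, g d (n + d) = g d n) ∧
    ∀ n, V n = ∑ d ∈ (PP z R).divisors with d ≤ R, g d n

lemma mem_PR {z R p : ℕ} : p ∈ PR z R ↔ (z < p ∧ p ≤ R) ∧ p.Prime := by
  unfold PR
  rw [Finset.mem_filter, Finset.mem_Ioc]

lemma PR_prime {z R : ℕ} (i : PR z R) : (i : ℕ).Prime := (mem_PR.mp i.2).2

instance neZeroPR {z R : ℕ} (i : PR z R) : NeZero (i : ℕ) := ⟨(PR_prime i).ne_zero⟩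

lemma PP_pos (z R : ℕ) : 0 < PP z R :=
  Finset.prod_pos (fun _ hp => (mem_PR.mp hp).2.pos)

instance neZeroPP (z R : ℕ) : NeZero (PP z R) := ⟨(PP_pos z R).ne'⟩

lemma PP_eq (z R : ℕ) : ∏ i : PR z R, (i : ℕ) = PP z R := by
  unfold PP
  exact Finset.prod_coe_sort (PR z R) (fun p => p)

lemma pairwise_coprime (z R : ℕ) :
    Pairwise (fun i j : PR z R => Nat.Coprime (i : ℕ) (j : ℕ)) := by
  intro i j hij
  exact (Nat.coprime_primes (PR_prime i) (PR_prime j)).mpr (fun h => hij (Subtype.ext h))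

/-- residues of an integer -/
def res (z R : ℕ) (n : ℤ) (i : PR z R) : ZMod (i : ℕ) := (n : ZMod (i : ℕ))

lemma dvd_of_res {z R : ℕ} {m n : ℤ} (D : Finset (PR z R))
    (h : ∀ i ∈ D, res z R m i = res z R n i) : ((∏ i ∈ D, (i : ℕ) : ℕ) : ℤ) ∣ m - n := by
  push_cast
  apply Finset.prod_dvd_of_coprime
  · intro i _ j _ hij
    exact Nat.isCoprime_iff_coprime.mpr (pairwise_coprime z R hij)
  · intro i hi
    have h1 := h i hi
    unfold res at h1
    have h2 : ((m - n : ℤ) : ZMod (i : ℕ)) = 0 := by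
      push_cast
      rw [h1, sub_self]
    exact (ZMod.intCast_zmod_eq_zero_iff_dvd _ _).mp h2

/-- the residues give a bijection -/
lemma res_bij (z R : ℕ) (x : ∀ i : PR z R, ZMod (i : ℕ)) :
    ∃! n : ℤ, n ∈ Finset.Ico (0:ℤ) (PP z R) ∧ res z R n = x := by
  -- by counting
  have hinj : Function.Injective
      (fun m : Fin (PP z R) => (fun i : PR z R => ((m : ℕ) : ZMod (i : ℕ)))) := by
    intro a b hab
    have h1 : ((∏ i : PR z R, (i : ℕ) : ℕ) : ℤ) ∣ ((a : ℕ) : ℤ) - ((b : ℕ) : ℤ) := by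
      apply dvd_of_res
      intro i _
      have := congrFun hab i
      unfold res
      push_cast
      exact this
    rw [PP_eq] at h1
    have h2 : ((a : ℕ) : ℤ) - ((b : ℕ) : ℤ) = 0 := by
      apply Int.eq_zero_of_abs_lt_dvd h1
      rw [abs_lt]
      have := a.2
      have := b.2
      constructor <;> omega
    apply Fin.ext
    omega
  have hcard : Fintype.card (Fin (PP z R)) = Fintype.card (∀ i : PR z R, ZMod (i : ℕ)) := by
    rw [Fintype.card_fin, Fintype.card_pi]
    rw [← PP_eq]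
    apply Finset.prod_congr rfl
    intro i _
    exact (ZMod.card _).symm
  have hbij := (Fintype.bijective_iff_injective_and_card _).mpr ⟨hinj, hcard⟩
  obtain ⟨m, hm⟩ := hbij.2 x
  refine ⟨((m : ℕ) : ℤ), ⟨?_, ?_⟩, ?_⟩
  · rw [Finset.mem_Ico]
    have := m.2
    constructor <;> omega
  · funext i
    have := congrFun hm i
    unfold res
    push_cast
    exact this
  · rintro n ⟨hn, hnx⟩
    rw [Finset.mem_Ico] at hn
    have h1 : ((∏ i : PR z R, (i : ℕ) : ℕ) : ℤ) ∣ n - ((m : ℕ) : ℤ) := by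
      apply dvd_of_res
      intro i _
      have := congrFun hm i
      rw [congrFun hnx i]
      unfold res
      push_cast
      exact this.symm
    rw [PP_eq] at h1
    have h2 : n - ((m : ℕ) : ℤ) = 0 := by
      apply Int.eq_zero_of_abs_lt_dvd h1
      rw [abs_lt]
      have := m.2
      constructor <;> omega
    omega

/-- an integer with given residues -/
noncomputable def lift (z R : ℕ) (x : ∀ i : PR z R, ZMod (i : ℕ)) : ℤ := (res_bij z R x).choose

lemma lift_mem {z R : ℕ} (x : ∀ i : PR z R, ZMod (i : ℕ)) :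
    lift z R x ∈ Finset.Ico (0:ℤ) (PP z R) := (res_bij z R x).choose_spec.1.1

lemma res_lift {z R : ℕ} (x : ∀ i : PR z R, ZMod (i : ℕ)) : res z R (lift z R x) = x :=
  (res_bij z R x).choose_spec.1.2

lemma lift_res {z R : ℕ} (n : ℤ) (hn : n ∈ Finset.Ico (0:ℤ) (PP z R)) :
    lift z R (res z R n) = n :=
  ((res_bij z R (res z R n)).choose_spec.2 n ⟨hn, rfl⟩).symm

/-- the expectation as an average over a period -/
lemma EE_eq {z R : ℕ} (F : ℤ → ℝ) :
    EE (UU (fun i : PR z R => ZMod (i : ℕ))) (fun x => F (lift z R x)) =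
      1 / (PP z R : ℝ) * ∑ n ∈ Finset.Ico (0:ℤ) (PP z R), F n := by
  unfold EE
  have h1 : ∀ x : ∀ i : PR z R, ZMod (i : ℕ),
      ∏ i, UU (fun i : PR z R => ZMod (i : ℕ)) i (x i) = 1 / (PP z R : ℝ) := by
    intro x
    unfold UU
    rw [Finset.prod_div_distrib, Finset.prod_const_one, ← PP_eq]
    push_cast
    congr 1
    apply Finset.prod_congr rfl
    intro i _
    rw [ZMod.card]
  rw [Finset.sum_congr rfl (fun x _ => by rw [h1 x]), ← Finset.mul_sum]
  congr 1
  refine Finset.sum_nbij' (fun x => lift z R x) (fun n => res z R n) ?_ ?_ ?_ ?_ ?_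
  · intro x _; exact lift_mem x
  · intro n _; exact Finset.mem_univ _
  · intro x _; exact res_lift x
  · intro n hn; exact lift_res n hn
  · intro x _; rfl

lemma periodic_of_dvd {f : ℤ → ℝ} {d : ℕ} (hf : ∀ n, f (n + d) = f n) {m n : ℤ}
    (h : (d : ℤ) ∣ m - n) : f m = f n := by
  obtain ⟨k, hk⟩ := h
  have h1 : ∀ (k : ℕ) (n : ℤ), f (n + d * k) = f n := by
    intro k
    induction k with
    | zero => intro n; simp
    | succ k ih =>
      intro n
      have : n + (d:ℤ) * ((k + 1 : ℕ) : ℤ) = (n + d * k) + d := by push_cast; ring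
      rw [this, hf, ih]
  have hm : m = n + d * k := by linarith
  rcases Int.eq_nat_or_neg k with ⟨k', hk' | hk'⟩
  · rw [hm, hk', h1]
  · have : n = m + d * (k' : ℤ) := by rw [hm, hk']; ring
    rw [this, h1]

/-- divisors of the product correspond to sets of primes -/
lemma sum_divisors {z R : ℕ} (f : ℕ → ℝ) :
    ∑ d ∈ (PP z R).divisors with d ≤ R, f d =
      ∑ D : Finset (PR z R), if (∏ i ∈ D, (i : ℕ)) ≤ R then f (∏ i ∈ D, (i : ℕ)) else 0 := by
  rw [← Finset.sum_filter]
  have hprime : ∀ D : Finset (PR z R), ∀ i : PR z R, (i : ℕ) ∣ ∏ j ∈ D, (j : ℕ) ↔ i ∈ D := by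
    intro D i
    constructor
    · intro h
      obtain ⟨j, hj, hd⟩ := (Prime.dvd_finsetProd_iff (PR_prime i).prime _).mp h
      have := (Nat.prime_dvd_prime_iff_eq (PR_prime i) (PR_prime j)).mp hd
      rw [Subtype.ext this]
      exact hj
    · intro h
      exact Finset.dvd_prod_of_mem _ h
  refine Finset.sum_nbij' (fun d => univ.filter (fun i : PR z R => (i : ℕ) ∣ d))
    (fun D => ∏ i ∈ D, (i : ℕ)) ?_ ?_ ?_ ?_ ?_
  · intro d hd
    rw [Finset.mem_filter, Nat.mem_divisors] at hd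
    rw [Finset.mem_filter]
    refine ⟨mem_univ _, ?_⟩
    have : ∏ i ∈ univ.filter (fun i : PR z R => (i : ℕ) ∣ d), (i : ℕ) ∣ d := by
      apply Finset.prod_dvd_of_isRelPrime
      · intro i _ j _ hij
        exact (Nat.coprime_iff_isRelPrime.mp (pairwise_coprime z R hij))
      · intro i hi
        exact (Finset.mem_filter.mp hi).2
    refine (Nat.le_of_dvd ?_ this).trans hd.2
    exact Nat.pos_of_dvd_of_pos hd.1.1 (PP_pos z R)
  · intro D hD
    rw [Finset.mem_filter] at hD ⊢
    refine ⟨?_, hD.2⟩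
    rw [Nat.mem_divisors]
    refine ⟨?_, (PP_pos z R).ne'⟩
    rw [← PP_eq]
    exact Finset.prod_dvd_prod_of_subset _ _ _ (Finset.subset_univ D)
  · intro d hd
    rw [Finset.mem_filter, Nat.mem_divisors] at hd
    have hsq : Squarefree (PP z R) := by
      rw [← PP_eq]
      apply Finset.squarefree_prod_of_pairwise_isCoprime
      · intro i _ j _ hij
        exact (Nat.coprime_iff_isRelPrime.mp (pairwise_coprime z R hij))
      · intro i _
        exact (PR_prime i).squarefree
    have hd1 : Squarefree d := hsq.squarefree_of_dvd hd.1.1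
    have h2 := Nat.prod_primeFactors_of_squarefree hd1
    conv_rhs => rw [← h2]
    have h3 : d.primeFactors = (univ.filter (fun i : PR z R => (i : ℕ) ∣ d)).map
        ⟨fun i : PR z R => (i : ℕ), Subtype.val_injective⟩ := by
      ext p
      rw [Nat.mem_primeFactors, Finset.mem_map]
      constructor
      · rintro ⟨hp, hpd, _⟩
        have h4 : p ∣ PP z R := hpd.trans hd.1.1
        rw [← PP_eq] at h4
        obtain ⟨j, _, hj⟩ := (Prime.dvd_finsetProd_iff hp.prime _).mp h4
        have h5 := (Nat.prime_dvd_prime_iff_eq hp (PR_prime j)).mp hj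
        refine ⟨j, ?_, h5.symm⟩
        rw [Finset.mem_filter]
        exact ⟨mem_univ _, by rw [← h5]; exact hpd⟩
      · rintro ⟨j, hj, rfl⟩
        rw [Finset.mem_filter] at hj
        refine ⟨PR_prime j, hj.2, ?_⟩
        rintro rfl
        exact (PP_pos z R).ne' (Nat.eq_zero_of_zero_dvd hd.1.1)
    rw [h3, Finset.prod_map]
    rfl
  · intro D _
    ext i
    rw [Finset.mem_filter]
    simp only [mem_univ, true_and]
    exact hprime D i
  · intro d hd
    rw [Finset.mem_filter, Nat.mem_divisors] at hd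
    congr 1
    -- same computation as above
    have hsq : Squarefree (PP z R) := by
      rw [← PP_eq]
      apply Finset.squarefree_prod_of_pairwise_isCoprime
      · intro i _ j _ hij
        exact (Nat.coprime_iff_isRelPrime.mp (pairwise_coprime z R hij))
      · intro i _
        exact (PR_prime i).squarefree
    have hd1 : Squarefree d := hsq.squarefree_of_dvd hd.1.1
    have h2 := Nat.prod_primeFactors_of_squarefree hd1
    conv_lhs => rw [← h2]
    have h3 : d.primeFactors = (univ.filter (fun i : PR z R => (i : ℕ) ∣ d)).map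
        ⟨fun i : PR z R => (i : ℕ), Subtype.val_injective⟩ := by
      ext p
      rw [Nat.mem_primeFactors, Finset.mem_map]
      constructor
      · rintro ⟨hp, hpd, _⟩
        have h4 : p ∣ PP z R := hpd.trans hd.1.1
        rw [← PP_eq] at h4
        obtain ⟨j, _, hj⟩ := (Prime.dvd_finsetProd_iff hp.prime _).mp h4
        have h5 := (Nat.prime_dvd_prime_iff_eq hp (PR_prime j)).mp hj
        refine ⟨j, ?_, h5.symm⟩
        rw [Finset.mem_filter]
        exact ⟨mem_univ _, by rw [← h5]; exact hpd⟩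
      · rintro ⟨j, hj, rfl⟩
        rw [Finset.mem_filter] at hj
        refine ⟨PR_prime j, hj.2, ?_⟩
        rintro rfl
        exact (PP_pos z R).ne' (Nat.eq_zero_of_zero_dvd hd.1.1)
    rw [h3, Finset.prod_map]
    rfl

/-- functions of level `R` on the integers give functions of bounded level on the product space -/
lemma Lev_of_HasLevel {z R : ℕ} {V : ℤ → ℝ} (hV : HasLevel z R V) :
    Lev (Ω := fun i : PR z R => ZMod (i : ℕ)) (fun i => Real.log (i : ℕ)) univ (Real.log R)
      (fun x => V (lift z R x)) := by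
  obtain ⟨g, hg, hsum⟩ := hV
  refine ⟨fun D x => if (∏ i ∈ D, (i : ℕ)) ≤ R then g (∏ i ∈ D, (i : ℕ)) (lift z R x) else 0,
    ?_, ?_, ?_⟩
  · intro D hD
    funext x
    simp only [Pi.zero_apply]
    rw [if_neg]
    intro hle
    have hpos : 0 < ∏ i ∈ D, (i : ℕ) := Finset.prod_pos (fun i _ => (PR_prime i).pos)
    have h1 : Real.log ((∏ i ∈ D, (i : ℕ) : ℕ) : ℝ) ≤ Real.log R :=
      Real.log_le_log (by exact_mod_cast hpos) (by exact_mod_cast hle)
    rw [Nat.cast_prod, Real.log_prod (fun i _ => by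
      have := (PR_prime i).ne_zero
      exact_mod_cast this)] at h1
    linarith
  · intro D x y hxy
    simp only
    split_ifs
    · apply periodic_of_dvd (hg _)
      apply dvd_of_res
      intro i hi
      rw [congrFun (res_lift x) i, congrFun (res_lift y) i]
      exact hxy i hi
    · rfl
  · intro x
    simp only
    rw [hsum, sum_divisors, Finset.powerset_univ]

lemma gcd_iff {z R : ℕ} (n h : ℤ) : Int.gcd (n + h) (PP z R) = 1 ↔
    ∀ i : PR z R, res z R n i ≠ ((-h : ℤ) : ZMod (i : ℕ)) := by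
  have h0 : ∀ i : PR z R, (res z R n i = ((-h : ℤ) : ZMod (i : ℕ))) ↔ ((i : ℕ) : ℤ) ∣ n + h := by
    intro i
    unfold res
    rw [← ZMod.intCast_zmod_eq_zero_iff_dvd]
    push_cast
    constructor
    · intro h1; rw [h1]; ring
    · intro h1
      exact eq_neg_of_add_eq_zero_left h1
  constructor
  · intro h1 i hi
    have h2 := (h0 i).mp hi
    have h3 : ((i : ℕ) : ℤ) ∣ (PP z R : ℤ) := by
      rw [← PP_eq]
      exact_mod_cast Finset.dvd_prod_of_mem _ (mem_univ i)
    have h4 := Int.dvd_coe_gcd h2 h3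
    rw [h1] at h4
    have h5 : (i : ℕ) ∣ 1 := by exact_mod_cast h4
    exact (PR_prime i).one_lt.ne' (Nat.dvd_one.mp h5)
  · intro h1
    by_contra h2
    obtain ⟨p, hp, hpd⟩ := Nat.exists_prime_and_dvd h2
    have h3 : (p : ℤ) ∣ n + h := dvd_trans (by exact_mod_cast hpd) (Int.gcd_dvd_left _ _)
    have h4 : (p : ℤ) ∣ (PP z R : ℤ) := dvd_trans (by exact_mod_cast hpd) (Int.gcd_dvd_right _ _)
    have h5 : p ∣ PP z R := by exact_mod_cast h4
    rw [← PP_eq] at h5
    obtain ⟨j, _, hj⟩ := (Prime.dvd_finsetProd_iff hp.prime _).mp h5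
    have h6 := (Nat.prime_dvd_prime_iff_eq hp (PR_prime j)).mp hj
    exact h1 j ((h0 j).mpr (by rw [← h6]; exact h3))

/-- **Limit of the square sieve, explicit form.** -/
theorem limit_raw {z R : ℕ} (hz : 2 ≤ z) (H : Finset ℤ)
    (hH : ∀ p ∈ PR z R, ∀ h ∈ H, ∀ h' ∈ H, h ≠ h' → ¬ (p : ℤ) ∣ h - h')
    {θ : ℝ} (hθ0 : 0 ≤ θ) (hθ : ∀ p ∈ PR z R, (H.card : ℝ) / p ≤ θ)
    {V : ℤ → ℝ} (hV : HasLevel z R V) {t : ℝ} (ht0 : 0 < t) (ht1 : t ≤ 1) :
    (∏ i : PR z R, (1 - 1 / ((i : ℕ) : ℝ))) * ((1 - t) * ((H.card : ℝ) -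
      (1 + θ) * (Real.log R / Real.log z) - (1 + θ) * Real.log R *
        GN (fun i : PR z R => 1 / (((i : ℕ) : ℝ) - 1)) (fun i => Real.log (i : ℕ)) univ
          (Real.log R) / t)) *
        ∑ n ∈ Finset.Ico (0:ℤ) (PP z R), (V n) ^ 2 ≤
      ∑ n ∈ Finset.Ico (0:ℤ) (PP z R), (V n) ^ 2 *
        ((H.filter (fun h => Int.gcd (n + h) (PP z R) = 1)).card : ℝ) := by
  have hlz : 0 < Real.log z := Real.log_pos (by exact_mod_cast (by omega : 1 < z))
  have h1 := abstract_main (ι := PR z R) (Ω := fun i : PR z R => ZMod (i : ℕ))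
    (fun i => by rw [ZMod.card]; exact (PR_prime i).two_le) (κ := H)
    (fun k i => ((-(k : ℤ) : ℤ) : ZMod (i : ℕ)))
    (by
      intro i k k' hkk
      by_contra hne
      have h2 : (k : ℤ) ≠ (k' : ℤ) := fun h => hne (Subtype.ext h)
      apply hH (i : ℕ) i.2 k k.2 k' k'.2 h2
      simp only at hkk
      rw [← ZMod.intCast_zmod_eq_zero_iff_dvd]
      push_cast at hkk ⊢
      have h3 := neg_injective hkk
      rw [h3, sub_self])
    (w := fun i => Real.log (i : ℕ)) (l := Real.log z) hlz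
    (by
      intro i
      have := (mem_PR.mp i.2).1.1
      exact Real.log_le_log (by exact_mod_cast (by omega : 0 < z))
        (by exact_mod_cast this.le))
    hθ0
    (by
      intro i
      rw [ZMod.card, Fintype.card_coe]
      exact hθ i i.2)
    (fun x => V (lift z R x)) (L := Real.log R) (Lev_of_HasLevel hV) ht0 ht1
  simp only [ZMod.card, Fintype.card_coe] at h1
  have hP : (0:ℝ) < (PP z R : ℝ) := by exact_mod_cast PP_pos z R
  have e1 : EE (UU (fun i : PR z R => ZMod (i : ℕ))) (fun x => (V (lift z R x)) ^ 2) =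
      1 / (PP z R : ℝ) * ∑ n ∈ Finset.Ico (0:ℤ) (PP z R), (V n) ^ 2 :=
    EE_eq (fun n => (V n) ^ 2)
  have e2 : ∀ k : H, EE (UU (fun i : PR z R => ZMod (i : ℕ)))
      (fun x => if ∀ i, x i ≠ ((-(k : ℤ) : ℤ) : ZMod (i : ℕ)) then (V (lift z R x)) ^ 2 else 0) =
      1 / (PP z R : ℝ) * ∑ n ∈ Finset.Ico (0:ℤ) (PP z R),
        (if Int.gcd (n + k) (PP z R) = 1 then (V n) ^ 2 else 0) := by
    intro k
    rw [← EE_eq (fun n => if Int.gcd (n + k) (PP z R) = 1 then (V n) ^ 2 else 0)]
    congr 1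
    funext x
    have h3 := gcd_iff (z := z) (R := R) (lift z R x) (k : ℤ)
    rw [res_lift] at h3
    by_cases h4 : Int.gcd (lift z R x + k) (PP z R) = 1
    · rw [if_pos h4, if_pos (h3.mp h4)]
    · rw [if_neg h4, if_neg (fun h => h4 (h3.mpr h))]
  rw [e1, Finset.sum_congr rfl (fun k _ => e2 k), ← Finset.mul_sum, Finset.sum_comm] at h1
  have e3 : ∀ n : ℤ, ∑ k : H, (if Int.gcd (n + k) (PP z R) = 1 then (V n) ^ 2 else 0) =
      (V n) ^ 2 * ((H.filter (fun h => Int.gcd (n + h) (PP z R) = 1)).card : ℝ) := by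
    intro n
    rw [Finset.sum_coe_sort H (fun h => if Int.gcd (n + h) (PP z R) = 1 then (V n) ^ 2 else 0),
      ← Finset.sum_filter, Finset.sum_const, nsmul_eq_mul, mul_comm]
  rw [Finset.sum_congr rfl (fun n _ => e3 n)] at h1
  have h5 := mul_le_mul_of_nonneg_left h1 hP.le
  have e4 : ∀ X Y Z : ℝ, (PP z R : ℝ) * (X * (Y * (1 / (PP z R : ℝ) * Z))) = X * Y * Z := by
    intro X Y Z; field_simp
  have e5 : ∀ Z : ℝ, (PP z R : ℝ) * (1 / (PP z R : ℝ) * Z) = Z := by
    intro Z; field_simp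
  rw [e4, e5] at h5
  exact h5

end Pool.Agent.J4.H55.SQ
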