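import Pool.Agent.J4.H55.SQ.Kern

set_option autoImplicit false
set_option linter.unusedSectionVars false

/-! # The limit of the square sieve (helper55) -/

namespace Pool.Agent.J4.H55.SQ

open Finset

lemma card_le_of_incong {H : Finset ℤ} {p : ℕ} (hp : 0 < p)
    (hH : ∀ h ∈ H, ∀ h' ∈ H, h ≠ h' → ¬ (p : ℤ) ∣ h - h') : H.card ≤ p := by
  have : NeZero p := ⟨hp.ne'⟩
  have h1 : H.card ≤ Fintype.card (ZMod p) := by
    rw [← Finset.card_univ]
    apply Finset.card_le_card_of_injOn (fun h : ℤ => (h : ZMod p)) (fun _ _ => mem_univ _)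
    intro a ha b hb hab
    by_contra hne
    apply hH a ha b hb hne
    rw [← ZMod.intCast_zmod_eq_zero_iff_dvd]
    push_cast
    simp only at hab
    rw [hab, sub_self]
  rwa [ZMod.card] at h1

lemma exp_neg_gamma_lt_one : Real.exp (-Real.eulerMascheroniConstant) < 1 := by
  rw [Real.exp_lt_one_iff]
  have := Real.one_half_lt_eulerMascheroniConstant
  linarith

lemma num1 {ε η e : ℝ} (hε : 0 < ε) (hε1 : ε ≤ 1) (hη : η = ε / 100) (he0 : 0 < e) (he1 : e < 1) :
    (1 + η) * η + (1 + η) ^ 4 * (e + ε / 8) ≤ e + ε / 2 := by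
  have hη0 : 0 < η := by rw [hη]; positivity
  have hη1 : η ≤ 1 / 100 := by rw [hη]; linarith
  have h3 : (1 + η) ^ 4 ≤ 1 + 5 * η := by
    have e1 : (1 + η) ^ 4 = 1 + 4 * η + η * (6 * η + 4 * η ^ 2 + η ^ 3) := by ring
    have e2 : 6 * η + 4 * η ^ 2 + η ^ 3 ≤ 1 := by
      have : η ^ 2 ≤ 1 / 100 := by nlinarith
      have : η ^ 3 ≤ 1 / 100 := by
        have : η ^ 3 = η * η ^ 2 := by ring
        nlinarith
      linarith
    have e3 := mul_le_mul_of_nonneg_left e2 hη0.le
    rw [e1]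
    linarith
  have h5 : (1 + η) ^ 4 * (e + ε / 8) ≤ (1 + 5 * η) * (e + ε / 8) :=
    mul_le_mul_of_nonneg_right h3 (by positivity)
  have h6 : e + ε / 8 ≤ 9 / 8 := by linarith
  have h7 : 5 * η * (e + ε / 8) ≤ 5 * η * (9 / 8) :=
    mul_le_mul_of_nonneg_left h6 (by positivity)
  have h8 : (1 + η) * η ≤ 2 * η := mul_le_mul_of_nonneg_right (by linarith) hη0.le
  have h9 : (1 + 5 * η) * (e + ε / 8) = (e + ε / 8) + 5 * η * (e + ε / 8) := by ring
  linarith

lemma num2 {ε η e A B : ℝ} (hη0 : 0 < η) (h1 : A ≤ η * B) :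
    (1 + η) * A + (1 + η) * ((1 + η) * ((1 + η) * ((e + ε / 8) * ((1 + η) * B)))) ≤
      ((1 + η) * η + (1 + η) ^ 4 * (e + ε / 8)) * B := by
  have h2 : (1 + η) * A ≤ (1 + η) * (η * B) := mul_le_mul_of_nonneg_left h1 (by linarith)
  have h3 : ((1 + η) * η + (1 + η) ^ 4 * (e + ε / 8)) * B = (1 + η) * (η * B) +
      (1 + η) * ((1 + η) * ((1 + η) * ((e + ε / 8) * ((1 + η) * B)))) := by ring
  rw [h3]
  linarith

lemma num3 {ε e B K : ℝ} (hε : 0 < ε) (hε1 : ε ≤ 1) (he1 : e < 1) (hB0 : 0 < B)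
    (hK : (e + ε) * B ≤ K) : (e + ε / 2) * B ≤ (1 - ε / 4) * K := by
  have h6 : (e + ε / 2) ≤ (1 - ε / 4) * (e + ε) := by
    have : (1 - ε / 4) * (e + ε) = e + ε - ε / 4 * (e + ε) := by ring
    have : ε / 4 * (e + ε) ≤ ε / 4 * 2 :=
      mul_le_mul_of_nonneg_left (by linarith) (by positivity)
    linarith
  calc (e + ε / 2) * B ≤ (1 - ε / 4) * (e + ε) * B := mul_le_mul_of_nonneg_right h6 hB0.le
    _ = (1 - ε / 4) * ((e + ε) * B) := by ring
    _ ≤ (1 - ε / 4) * K := mul_le_mul_of_nonneg_left hK (by linarith)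

lemma num4 {ε η e B : ℝ} (hη0 : 0 < η) (hη1 : η ≤ 1 / 100) (hε : 0 < ε) (hε1 : ε ≤ 1)
    (he0 : 0 < e) (he1 : e < 1) (hB0 : 0 < B) :
    (1 + η) * ((1 + η) * ((e + ε / 8) * ((1 + η) * B))) ≤ 16 * B := by
  have h4 : (1 + η) * ((1 + η) * ((e + ε / 8) * ((1 + η) * B))) =
      (1 + η) ^ 3 * (e + ε / 8) * B := by ring
  rw [h4]
  apply mul_le_mul_of_nonneg_right _ hB0.le
  have h5 : (1 + η) ^ 3 ≤ 8 := by
    have : (1 + η) ^ 3 ≤ 2 ^ 3 := pow_le_pow_left₀ (by positivity) (by linarith) 3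
    linarith
  have h6 : e + ε / 8 ≤ 2 := by linarith
  calc (1 + η) ^ 3 * (e + ε / 8) ≤ 8 * 2 := mul_le_mul h5 h6 (by positivity) (by norm_num)
    _ = 16 := by norm_num

lemma num5 {A x η : ℝ} (h0 : 0 ≤ A / x) (hη1 : η ≤ 1 / 100) (h1 : A / x ≤ η / 2) :
    Real.exp (A / x) ≤ 1 + η := by
  have h3 := Real.abs_exp_sub_one_le (x := A / x) (by rw [abs_of_nonneg h0]; linarith)
  rw [abs_of_nonneg h0] at h3
  have h4 := (abs_le.mp h3).2
  linarith

/-- **Limit of the square sieve**, general form. -/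
theorem limit (ε : ℝ) (hε : 0 < ε) : ∃ c : ℝ, 0 < c ∧ ∃ C : ℝ, 0 < C ∧
    ∀ z R : ℕ, 2 ≤ z → z ≤ R →
      C ≤ Real.log R / Real.log z →
      C * (Real.log R / Real.log z * Real.log (Real.log R / Real.log z)) ≤ z →
    ∀ H : Finset ℤ,
      (∀ p ∈ PR z R, ∀ h ∈ H, ∀ h' ∈ H, h ≠ h' → ¬ (p : ℤ) ∣ h - h') →
      (Real.exp (-Real.eulerMascheroniConstant) + ε) *
        (Real.log R / Real.log z * Real.log (Real.log R / Real.log z)) ≤ H.card →
    ∀ V : ℤ → ℝ, HasLevel z R V →
      c * (H.card / (Real.log R / Real.log z)) * ∑ n ∈ Finset.Ico (0:ℤ) (PP z R), (V n) ^ 2 ≤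
      ∑ n ∈ Finset.Ico (0:ℤ) (PP z R), (V n) ^ 2 *
        ((H.filter (fun h => Int.gcd (n + h) (PP z R) = 1)).card : ℝ) := by
  -- reduce to `ε ≤ 1`
  wlog hε1 : ε ≤ 1 generalizing ε with hwlog
  · obtain ⟨c, hc, C, hC, h⟩ := hwlog 1 one_pos le_rfl
    refine ⟨c, hc, max C 1, by positivity, ?_⟩
    intro z R hz hR hA hz' H hH hK V hV
    have hA1 : 1 ≤ Real.log R / Real.log z := (le_max_right _ _).trans hA
    have hB : 0 ≤ Real.log R / Real.log z * Real.log (Real.log R / Real.log z) :=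
      mul_nonneg (by linarith) (Real.log_nonneg hA1)
    refine h z R hz hR ((le_max_left _ _).trans hA) ?_ H hH ?_ V hV
    · exact (mul_le_mul_of_nonneg_right (le_max_left _ _) hB).trans hz'
    · refine le_trans ?_ hK
      apply mul_le_mul_of_nonneg_right _ hB
      linarith [not_le.mp hε1]
  set e : ℝ := Real.exp (-Real.eulerMascheroniConstant) with he
  have he0 : 0 < e := Real.exp_pos _
  have he1 : e < 1 := exp_neg_gamma_lt_one
  obtain ⟨s, hs, z₀, hz₀2, hker⟩ := kernel_upper (ε / 8) (by positivity)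
  obtain ⟨c₀, hc₀, hmert⟩ := mertens_lower
  set η : ℝ := ε / 100 with hη
  have hη0 : 0 < η := by positivity
  have hη1 : η ≤ 1 / 100 := by rw [hη]; linarith
  -- the large constant
  set C : ℝ := max (max (80 / η) z₀) (Real.exp ((s + 1) / η)) with hC
  have hC0 : 0 < C := lt_of_lt_of_le (Real.exp_pos _) (le_max_right _ _)
  refine ⟨c₀ * (η / (1 + η)) * (ε / 4), by positivity, C, hC0, ?_⟩
  intro z R hz hR hA hzC H hH hK V hV
  set A : ℝ := Real.log R / Real.log z with hAdef
  set B : ℝ := A * Real.log A with hB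
  set K : ℝ := (H.card : ℝ) with hKdef
  have hlz : 0 < Real.log z := Real.log_pos (by exact_mod_cast (by omega : 1 < z))
  have hlR : 0 < Real.log R := Real.log_pos (by exact_mod_cast (by omega : 1 < R))
  have hA0 : 0 < A := lt_of_lt_of_le hC0 hA
  have hlA : (s + 1) / η ≤ Real.log A := by
    rw [Real.le_log_iff_exp_le hA0]
    exact (le_max_right _ _).trans hA
  have hlA1 : s + 1 ≤ η * Real.log A := by
    rw [div_le_iff₀ hη0] at hlA; linarith
  have hlApos : 1 ≤ Real.log A := by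
    have h1 : (1:ℝ) ≤ (s + 1) / η := by
      rw [le_div_iff₀ hη0]; linarith
    linarith
  have hC80 : 80 / η ≤ C := (le_max_left _ _).trans (le_max_left _ _)
  have hC80' : 80 ≤ η * C := by
    rw [div_le_iff₀ hη0] at hC80; linarith
  have hBA : A ≤ B := by
    have := mul_le_mul_of_nonneg_left hlApos hA0.le
    rw [hB]; linarith
  have hB0 : 0 < B := lt_of_lt_of_le hA0 hBA
  have hAB : (s + 1) * A ≤ η * B := by
    have := mul_le_mul_of_nonneg_right hlA1 hA0.le
    rw [hB]
    linarith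
  have hz0 : (0:ℝ) < z := by exact_mod_cast (by omega : 0 < z)
  -- `z₀ ≤ z`
  have hzz₀ : z₀ ≤ z := by
    have h1 : (z₀ : ℝ) ≤ C := (le_max_right _ _).trans (le_max_left _ _)
    have h2 : (1:ℝ) ≤ B := by
      have : (1:ℝ) ≤ C := by
        have : (2:ℝ) ≤ z₀ := by exact_mod_cast hz₀2
        linarith
      linarith
    have h3 : (z₀ : ℝ) ≤ z := by
      have : C * 1 ≤ C * B := mul_le_mul_of_nonneg_left h2 hC0.le
      linarith
    exact_mod_cast h3
  have hG := hker z R hzz₀ hR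
  set G : ℝ := GN (fun i : PR z R => 1 / (((i : ℕ) : ℝ) - 1)) (fun i => Real.log (i : ℕ)) univ
    (Real.log R) with hGdef
  -- `exp (A / z) ≤ 1 + η`
  have hexp : Real.exp (A / z) ≤ 1 + η := by
    have h1 : A / z ≤ η / 2 := by
      rw [div_le_iff₀ hz0]
      have h2 : C * A ≤ C * B := mul_le_mul_of_nonneg_left hBA hC0.le
      have h3 : C * A ≤ z := h2.trans hzC
      have h4 : η * (C * A) ≤ η * z := mul_le_mul_of_nonneg_left h3 hη0.le
      have h5 : 80 * A ≤ η * C * A := mul_le_mul_of_nonneg_right hC80' hA0.le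
      have h6 : η * C * A = η * (C * A) := by ring
      linarith
    exact num5 (by positivity) hη1 h1
  have hLG : Real.log R * G ≤ (1 + η) * ((e + ε / 8) * ((1 + η) * B)) := by
    have h1 : Real.log R * G ≤ Real.log R * (Real.exp (A / z) * ((e + ε / 8) / Real.log z *
        (Real.log A + s))) := mul_le_mul_of_nonneg_left hG hlR.le
    have h2 : Real.log R * (Real.exp (A / z) * ((e + ε / 8) / Real.log z *
        (Real.log A + s))) = Real.exp (A / z) * ((e + ε / 8) * (B + s * A)) := by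
      rw [hB, hAdef]; field_simp
    rw [h2] at h1
    refine h1.trans ?_
    have h3 : B + s * A ≤ (1 + η) * B := by linarith
    apply mul_le_mul hexp _ (by positivity) (by positivity)
    exact mul_le_mul_of_nonneg_left h3 (by positivity)
  -- the main inequality, for admissible `θ`
  have hmain : ∀ θ : ℝ, 0 ≤ θ → (∀ p ∈ PR z R, K / p ≤ θ) →
      (1 + θ) * A + (1 + θ) * ((1 + η) * ((1 + η) * ((e + ε / 8) * ((1 + η) * B)))) ≤
        (1 - ε / 4) * K →
      c₀ * (η / (1 + η)) * (ε / 4) * (K / A) * ∑ n ∈ Finset.Ico (0:ℤ) (PP z R), (V n) ^ 2 ≤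
      ∑ n ∈ Finset.Ico (0:ℤ) (PP z R), (V n) ^ 2 *
        ((H.filter (fun h => Int.gcd (n + h) (PP z R) = 1)).card : ℝ) := by
    intro θ hθ0 hθ hineq
    have h1 := limit_raw hz H hH hθ0 hθ hV (t := 1 / (1 + η)) (by positivity)
      (by rw [div_le_one (by positivity)]; linarith)
    refine le_trans ?_ h1
    have hV0 : 0 ≤ ∑ n ∈ Finset.Ico (0:ℤ) (PP z R), (V n) ^ 2 :=
      Finset.sum_nonneg (fun n _ => sq_nonneg _)
    apply mul_le_mul_of_nonneg_right _ hV0
    have h2 := hmert z R hz hR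
    have h3 : Real.log z / Real.log R = 1 / A := by rw [hAdef]; field_simp
    rw [h3] at h2
    have h4 : 1 - 1 / (1 + η) = η / (1 + η) := by field_simp; ring
    rw [h4]
    have h5 : ε / 4 * K ≤ K - (1 + θ) * A - (1 + θ) * Real.log R * G / (1 / (1 + η)) := by
      have h6 : (1 + θ) * Real.log R * G / (1 / (1 + η)) =
          (1 + θ) * ((1 + η) * (Real.log R * G)) := by field_simp
      rw [h6]
      have h7 : (1 + θ) * ((1 + η) * (Real.log R * G)) ≤
          (1 + θ) * ((1 + η) * ((1 + η) * ((e + ε / 8) * ((1 + η) * B)))) := by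
        apply mul_le_mul_of_nonneg_left _ (by linarith)
        exact mul_le_mul_of_nonneg_left hLG (by linarith)
      linarith
    have h8 : c₀ * (η / (1 + η)) * (ε / 4) * (K / A) =
        (c₀ * (1 / A)) * (η / (1 + η) * (ε / 4 * K)) := by ring
    rw [h8]
    apply mul_le_mul h2 _ (by positivity)
    · exact (by positivity : (0:ℝ) ≤ c₀ * (1 / A)).trans h2
    · exact mul_le_mul_of_nonneg_left h5 (by positivity)
  have hK0 : 0 < K := lt_of_lt_of_le (by positivity) hK
  by_cases hcase : K ≤ η * z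
  · -- few shifts compared to `z`
    apply hmain η hη0.le
    · intro p hp
      have hp0 := (mem_PR.mp hp).1.1
      have hzp : (z:ℝ) ≤ p := by exact_mod_cast hp0.le
      rw [div_le_iff₀ (by linarith)]
      exact hcase.trans (mul_le_mul_of_nonneg_left hzp hη0.le)
    · have h1 : A ≤ η * B := by
        have : A ≤ (s + 1) * A := by
          have := mul_le_mul_of_nonneg_right (show (1:ℝ) ≤ s + 1 by linarith) hA0.le
          linarith
        exact this.trans hAB
      exact (num2 hη0 h1).trans ((mul_le_mul_of_nonneg_right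
        (num1 hε hε1 hη he0 he1) hB0.le).trans (num3 hε hε1 he1 hB0 hK))
  · -- many shifts
    push Not at hcase
    apply hmain 1 zero_le_one
    · intro p hp
      have hp0 := (mem_PR.mp hp).2.pos
      have h1 := card_le_of_incong hp0 (hH p hp)
      rw [div_le_one (by exact_mod_cast hp0), hKdef]
      exact_mod_cast h1
    · have h1 : 80 * B ≤ K := by
        have h2 : η * (C * B) ≤ η * z := mul_le_mul_of_nonneg_left hzC hη0.le
        have h3 : 80 * B ≤ η * C * B := mul_le_mul_of_nonneg_right hC80' hB0.le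
        have h4 : η * C * B = η * (C * B) := by ring
        linarith
      have h3 := num4 hη0 hη1 hε hε1 he0 he1 hB0
      have h5 : ε / 4 * K ≤ 1 / 4 * K := mul_le_mul_of_nonneg_right (by linarith) hK0.le
      have h6 : (1 - ε / 4) * K = K - ε / 4 * K := by ring
      rw [h6]
      linarith

end Pool.Agent.J4.H55.SQ
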