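import Pool.Agent.J4.H55.SQ.Basic

set_option autoImplicit false
set_option linter.unusedSectionVars false

/-! # Three inequalities for functions of bounded level (helper55) -/

namespace Pool.Agent.J4.H55.SQ

open Finset

variable {ι : Type} [Fintype ι] [DecidableEq ι] {Ω : ι → Type} [∀ i, Fintype (Ω i)]
variable {μ : ∀ i, Ω i → ℝ}

/-- the energy `∑_{i ∈ T} w_i E (F - E_i F)² + b E F²` -/
noncomputable def En (μ : ∀ i, Ω i → ℝ) (w : ι → ℝ) (T : Finset ι) (b : ℝ)
    (F : (∀ i, Ω i) → ℝ) : ℝ :=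
  ∑ i ∈ T, w i * EE μ (fun x => (dv μ i F x) ^ 2) + b * EE μ (fun x => (F x) ^ 2)

lemma En_nonneg (hμ0 : ∀ i a, 0 ≤ μ i a) {w : ι → ℝ} (hw : ∀ i, 0 ≤ w i) (T : Finset ι) {b : ℝ}
    (hb : 0 ≤ b) (F : (∀ i, Ω i) → ℝ) : 0 ≤ En μ w T b F := by
  unfold En
  have h1 : 0 ≤ ∑ i ∈ T, w i * EE μ (fun x => (dv μ i F x) ^ 2) :=
    Finset.sum_nonneg (fun i _ => mul_nonneg (hw i) (EE_nonneg hμ0 (fun x => sq_nonneg _)))
  have h2 : 0 ≤ b * EE μ (fun x => (F x) ^ 2) :=
    mul_nonneg hb (EE_nonneg hμ0 (fun x => sq_nonneg _))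
  linarith

/-- the average over the values of a coordinate of the energies of the restrictions -/
lemma En_restrict (hμ : ∀ i, ∑ a, μ i a = 1) (w : ι → ℝ) {T : Finset ι} {j : ι} (hj : j ∉ T)
    (b : ℝ) (F : (∀ i, Ω i) → ℝ) :
    ∑ a, μ j a * En μ w T b (fun x => F (Function.update x j a)) = En μ w T b F := by
  unfold En
  simp only [mul_add, Finset.sum_add_distrib]
  congr 1
  · simp only [Finset.mul_sum]
    rw [Finset.sum_comm]
    apply Finset.sum_congr rfl
    intro i hi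
    have hij : i ≠ j := by rintro rfl; exact hj hi
    rw [← EE_restrict hμ j (fun x => (dv μ i F x) ^ 2), Finset.mul_sum]
    apply Finset.sum_congr rfl
    intro a _
    rw [dv_restrict hij]
    ring
  · rw [← EE_restrict hμ j (fun x => (F x) ^ 2), Finset.mul_sum]
    apply Finset.sum_congr rfl
    intro a _
    ring

/-- decomposition of the energy -/
lemma En_insert (hμ : ∀ i, ∑ a, μ i a = 1) (w : ι → ℝ) {T : Finset ι} {j : ι} (hj : j ∉ T)
    (b : ℝ) (F : (∀ i, Ω i) → ℝ) :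
    En μ w (insert j T) b F = En μ w T b (av μ j F) + En μ w T (b + w j) (dv μ j F) := by
  unfold En
  rw [Finset.sum_insert hj]
  have h1 : ∑ i ∈ T, w i * EE μ (fun x => (dv μ i F x) ^ 2) =
      ∑ i ∈ T, w i * EE μ (fun x => (dv μ i (av μ j F) x) ^ 2) +
      ∑ i ∈ T, w i * EE μ (fun x => (dv μ i (dv μ j F) x) ^ 2) := by
    rw [← Finset.sum_add_distrib]
    apply Finset.sum_congr rfl
    intro i _
    rw [pyth hμ j (dv μ i F), av_dv_comm, dv_comm]
    ring
  rw [h1, pyth hμ j F]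
  ring

/-- spectral bound -/
theorem spectral (hμ : ∀ i, ∑ a, μ i a = 1) (hμ0 : ∀ i a, 0 ≤ μ i a) {w : ι → ℝ}
    (hw : ∀ i, 0 ≤ w i) (T : Finset ι) : ∀ (L : ℝ) (F : (∀ i, Ω i) → ℝ), Lev w T L F →
    En μ w T 0 F ≤ L * EE μ (fun x => (F x) ^ 2) := by
  induction T using Finset.induction_on with
  | empty =>
    intro L F hF
    unfold En
    simp only [Finset.sum_empty, zero_mul, add_zero]
    by_cases hL : 0 ≤ L
    · exact mul_nonneg hL (EE_nonneg hμ0 (fun x => sq_nonneg _))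
    · have h1 := Lev_empty_neg (not_le.mp hL) hF
      have h2 : EE μ (fun x => (F x) ^ 2) = 0 := by
        have : (fun x => (F x) ^ 2) = fun _ => (0:ℝ) := by
          funext x; rw [h1 x]; norm_num
        rw [this, EE_const hμ]
      rw [h2]; simp
  | insert j T hj ih =>
    intro L F hF
    have h1 := ih L (av μ j F) (Lev_av hw hj hF)
    have h2 : ∀ a, En μ w T 0 (fun x => dv μ j F (Function.update x j a)) ≤
        (L - w j) * EE μ (fun x => (dv μ j F (Function.update x j a)) ^ 2) := fun a =>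
      ih (L - w j) _ (Lev_dv hμ hj hF a)
    have h3 : En μ w T 0 (dv μ j F) ≤ (L - w j) * EE μ (fun x => (dv μ j F x) ^ 2) := by
      rw [← En_restrict hμ w hj 0 (dv μ j F), ← EE_restrict hμ j (fun x => (dv μ j F x) ^ 2),
        Finset.mul_sum]
      apply Finset.sum_le_sum
      intro a _
      have := mul_le_mul_of_nonneg_left (h2 a) (hμ0 j a)
      linarith
    rw [En_insert hμ w hj 0 F, pyth hμ j F]
    have h4 : En μ w T (0 + w j) (dv μ j F) = En μ w T 0 (dv μ j F) +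
        w j * EE μ (fun x => (dv μ j F x) ^ 2) := by
      unfold En
      ring
    rw [h4]
    linarith

/-- Efron–Stein inequality -/
theorem efron_stein (hμ : ∀ i, ∑ a, μ i a = 1) (hμ0 : ∀ i a, 0 ≤ μ i a) {w : ι → ℝ}
    (hw : ∀ i, 0 ≤ w i) (T : Finset ι) : ∀ (L : ℝ) (F : (∀ i, Ω i) → ℝ), Lev w T L F →
    EE μ (fun x => (F x) ^ 2) ≤ (EE μ F) ^ 2 + En μ (fun _ => 1) T 0 F := by
  induction T using Finset.induction_on with
  | empty =>
    intro L F hF
    unfold En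
    simp only [Finset.sum_empty, zero_mul, add_zero]
    by_cases hne : Nonempty (∀ i, Ω i)
    · obtain ⟨x₀⟩ := hne
      have h1 : F = fun _ => F x₀ := by funext x; exact Lev_empty_eq hF x x₀
      rw [h1, EE_const hμ, EE_const hμ]
    · have : IsEmpty (∀ i, Ω i) := not_nonempty_iff.mp hne
      unfold EE
      simp
  | insert j T hj ih =>
    intro L F hF
    have h1 := ih L (av μ j F) (Lev_av hw hj hF)
    rw [EE_av hμ] at h1
    rw [En_insert hμ _ hj 0 F, pyth hμ j F]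
    have h4 : En μ (fun _ => 1) T (0 + 1) (dv μ j F) = En μ (fun _ => 1) T 0 (dv μ j F) +
        EE μ (fun x => (dv μ j F x) ^ 2) := by
      unfold En
      ring
    rw [h4]
    have h5 := En_nonneg hμ0 (w := fun _ => (1:ℝ)) (fun _ => zero_le_one) T le_rfl (dv μ j F)
    linarith

/-- evaluation of a mean zero function at a point -/
lemma point_bound {α : Type} [Fintype α] [DecidableEq α] {ν : α → ℝ} (h1 : ∑ a, ν a = 1)
    (h0 : ∀ a, 0 ≤ ν a) (a₀ : α) (ha : 0 < ν a₀) (f : α → ℝ) (hf : ∑ a, ν a * f a = 0) :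
    (f a₀) ^ 2 ≤ (1 / ν a₀ - 1) * ∑ a, ν a * (f a) ^ 2 := by
  set m := ν a₀ with hm
  set Q := ∑ a, ν a * (f a) ^ 2 with hQ
  have e1 : ∑ a ∈ univ.erase a₀, ν a = 1 - m := by
    have := Finset.add_sum_erase univ ν (mem_univ a₀)
    linarith
  have e2 : ∑ a ∈ univ.erase a₀, ν a * f a = - (m * f a₀) := by
    have := Finset.add_sum_erase univ (fun a => ν a * f a) (mem_univ a₀)
    linarith
  have e3 : ∑ a ∈ univ.erase a₀, ν a * (f a) ^ 2 = Q - m * (f a₀) ^ 2 := by
    have := Finset.add_sum_erase univ (fun a => ν a * (f a) ^ 2) (mem_univ a₀)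
    linarith
  have cs : (∑ a ∈ univ.erase a₀, ν a * f a) ^ 2 ≤
      (∑ a ∈ univ.erase a₀, ν a) * ∑ a ∈ univ.erase a₀, ν a * (f a) ^ 2 := by
    apply Finset.sum_sq_le_sum_mul_sum_of_sq_le_mul
    · intro a _; exact h0 a
    · intro a _; exact mul_nonneg (h0 a) (sq_nonneg _)
    · intro a _; exact le_of_eq (by ring)
  rw [e1, e2, e3] at cs
  have h3 : m * (f a₀) ^ 2 ≤ (1 - m) * Q := by
    have : m * (m * (f a₀) ^ 2) ≤ m * ((1 - m) * Q) - (1 - m) * m * (f a₀) ^ 2 +
        ((1 - m) * Q - m * ((1 - m) * Q)) := by nlinarith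
    nlinarith
  have h4 : (1 / m - 1) * Q = ((1 - m) * Q) / m := by
    field_simp
  rw [h4, le_div_iff₀ ha]
  linarith

/-- the energy of a restriction of a function with mean zero in the coordinate `j` -/
lemma En_point (hμ : ∀ i, ∑ a, μ i a = 1) (hμ0 : ∀ i a, 0 ≤ μ i a) [∀ i, DecidableEq (Ω i)]
    {w : ι → ℝ} (hw : ∀ i, 0 ≤ w i) {T : Finset ι} {j : ι} (hj : j ∉ T) {b : ℝ} (hb : 0 ≤ b)
    (F : (∀ i, Ω i) → ℝ) (hF : av μ j F = fun _ => 0) (a₀ : Ω j) (ha : 0 < μ j a₀) :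
    En μ w T b (fun x => F (Function.update x j a₀)) ≤ (1 / μ j a₀ - 1) * En μ w T b F := by
  have key : ∀ G : (∀ i, Ω i) → ℝ, av μ j G = (fun _ => 0) →
      EE μ (fun x => (G (Function.update x j a₀)) ^ 2) ≤
        (1 / μ j a₀ - 1) * EE μ (fun x => (G x) ^ 2) := by
    intro G hG
    rw [← EE_restrict hμ j (fun x => (G x) ^ 2)]
    have : ∑ a, μ j a * EE μ (fun x => (G (Function.update x j a)) ^ 2) =
        EE μ (fun x => ∑ a, μ j a * (G (Function.update x j a)) ^ 2) := by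
      rw [EE_sum]
      exact Finset.sum_congr rfl (fun a _ => (EE_mul _ _).symm)
    rw [this, ← EE_mul]
    apply EE_mono hμ0
    intro x
    exact point_bound (hμ j) (hμ0 j) a₀ ha (fun a => G (Function.update x j a))
      (congrFun hG x)
  unfold En
  rw [mul_add]
  apply add_le_add
  · rw [Finset.mul_sum]
    apply Finset.sum_le_sum
    intro i hi
    have hij : i ≠ j := by rintro rfl; exact hj hi
    rw [dv_restrict hij]
    have h1 : av μ j (dv μ i F) = fun _ => 0 := by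
      rw [av_dv_comm, hF]
      funext x
      simp [dv, av]
    have := mul_le_mul_of_nonneg_left (key (dv μ i F) h1) (hw i)
    linarith
  · have := mul_le_mul_of_nonneg_left (key F hF) hb
    linarith

/-- the kernel sum with shift `b` -/
noncomputable def GG (c w : ι → ℝ) (T : Finset ι) (L b : ℝ) : ℝ :=
  ∑ S ∈ T.powerset with ∑ i ∈ S, w i ≤ L, (∏ i ∈ S, c i) / (∑ i ∈ S, w i + b)

/-- the kernel sum over nonempty sets -/
noncomputable def GN (c w : ι → ℝ) (T : Finset ι) (L : ℝ) : ℝ :=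
  ∑ S ∈ T.powerset with S.Nonempty ∧ ∑ i ∈ S, w i ≤ L, (∏ i ∈ S, c i) / (∑ i ∈ S, w i)

lemma GG_nonneg {c w : ι → ℝ} (hc : ∀ i, 0 ≤ c i) (hw : ∀ i, 0 ≤ w i) (T : Finset ι) (L : ℝ)
    {b : ℝ} (hb : 0 ≤ b) : 0 ≤ GG c w T L b := by
  unfold GG
  apply Finset.sum_nonneg
  intro S _
  have h1 : 0 ≤ ∏ i ∈ S, c i := Finset.prod_nonneg (fun i _ => hc i)
  have h2 : 0 ≤ ∑ i ∈ S, w i := Finset.sum_nonneg (fun i _ => hw i)
  positivity

lemma GN_nonneg {c w : ι → ℝ} (hc : ∀ i, 0 ≤ c i) (hw : ∀ i, 0 ≤ w i) (T : Finset ι) (L : ℝ) :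
    0 ≤ GN c w T L := by
  unfold GN
  apply Finset.sum_nonneg
  intro S _
  have h1 : 0 ≤ ∏ i ∈ S, c i := Finset.prod_nonneg (fun i _ => hc i)
  have h2 : 0 ≤ ∑ i ∈ S, w i := Finset.sum_nonneg (fun i _ => hw i)
  positivity

lemma GG_insert {c w : ι → ℝ} {T : Finset ι} {j : ι} (hj : j ∉ T) (L b : ℝ) :
    GG c w (insert j T) L b = GG c w T L b + c j * GG c w T (L - w j) (b + w j) := by
  unfold GG
  rw [Finset.sum_filter, Finset.sum_powerset_insert hj, ← Finset.sum_filter]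
  congr 1
  rw [← Finset.sum_filter, Finset.mul_sum]
  have hmem : ∀ S ∈ T.powerset, j ∉ S := fun S hS hjS => hj (Finset.mem_powerset.mp hS hjS)
  apply Finset.sum_congr
  · apply Finset.filter_congr
    intro S hS
    rw [Finset.sum_insert (hmem S hS)]
    constructor <;> intro h <;> linarith
  · intro S hS
    have hjS := hmem S (Finset.mem_filter.mp hS).1
    rw [Finset.sum_insert hjS, Finset.prod_insert hjS]
    rw [show w j + ∑ i ∈ S, w i + b = ∑ i ∈ S, w i + (b + w j) by ring]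
    ring

lemma GN_insert {c w : ι → ℝ} {T : Finset ι} {j : ι} (hj : j ∉ T) (L : ℝ) :
    GN c w (insert j T) L = GN c w T L + c j * GG c w T (L - w j) (w j) := by
  unfold GN GG
  rw [Finset.sum_filter, Finset.sum_powerset_insert hj, ← Finset.sum_filter]
  congr 1
  rw [← Finset.sum_filter, Finset.mul_sum]
  have hmem : ∀ S ∈ T.powerset, j ∉ S := fun S hS hjS => hj (Finset.mem_powerset.mp hS hjS)
  apply Finset.sum_congr
  · apply Finset.filter_congr
    intro S hS
    rw [Finset.sum_insert (hmem S hS)]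
    constructor
    · intro h; linarith [h.2]
    · intro h; exact ⟨Finset.insert_nonempty _ _, by linarith⟩
  · intro S hS
    have hjS := hmem S (Finset.mem_filter.mp hS).1
    rw [Finset.sum_insert hjS, Finset.prod_insert hjS]
    rw [show w j + ∑ i ∈ S, w i = ∑ i ∈ S, w i + w j by ring]
    ring

lemma cs_two {v r A B P Q : ℝ} (hA : 0 ≤ A) (hB : 0 ≤ B) (hP : 0 ≤ P) (hQ : 0 ≤ Q)
    (h1 : v ^ 2 ≤ A * P) (h2 : r ^ 2 ≤ B * Q) : (v + r) ^ 2 ≤ (A + B) * (P + Q) := by
  have h3 : (2 * (v * r)) ^ 2 ≤ (A * Q + B * P) ^ 2 := by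
    have e1 : (v * r) ^ 2 ≤ (A * P) * (B * Q) := by
      rw [mul_pow]
      exact mul_le_mul h1 h2 (sq_nonneg _) (mul_nonneg hA hP)
    nlinarith [sq_nonneg (A * Q - B * P)]
  have h4 : 0 ≤ A * Q + B * P := by positivity
  have h5 : 2 * (v * r) ≤ A * Q + B * P := by
    exact le_trans (le_abs_self _) (abs_le_of_sq_le_sq h3 h4)
  nlinarith

/-- evaluation at a point, with a shift -/
theorem eval_shift [∀ i, DecidableEq (Ω i)] (hμ : ∀ i, ∑ a, μ i a = 1) (hμ0 : ∀ i a, 0 ≤ μ i a)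
    {w : ι → ℝ} (hw : ∀ i, 0 ≤ w i) (x₀ : ∀ i, Ω i) (hx : ∀ i, 0 < μ i (x₀ i))
    (T : Finset ι) : ∀ (L b : ℝ) (F : (∀ i, Ω i) → ℝ), 0 < b → Lev w T L F →
    (F x₀) ^ 2 ≤ GG (fun i => 1 / μ i (x₀ i) - 1) w T L b * En μ w T b F := by
  have hle1 : ∀ i, μ i (x₀ i) ≤ 1 := by
    intro i
    rw [← hμ i]
    exact Finset.single_le_sum (f := fun a => μ i a) (fun a _ => hμ0 i a) (mem_univ _)
  have hc : ∀ i, 0 ≤ 1 / μ i (x₀ i) - 1 := by
    intro i
    rw [sub_nonneg, le_div_iff₀ (hx i)]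
    linarith [hle1 i]
  induction T using Finset.induction_on with
  | empty =>
    intro L b F hb hF
    have h1 : F = fun _ => F x₀ := by funext x; exact Lev_empty_eq hF x x₀
    by_cases hL : 0 ≤ L
    · have e1 : GG (fun i => 1 / μ i (x₀ i) - 1) w ∅ L b = 1 / b := by
        unfold GG
        rw [Finset.powerset_empty, Finset.filter_true_of_mem (by simp [hL])]
        simp
      have e2 : En μ w ∅ b F = b * (F x₀) ^ 2 := by
        unfold En
        rw [h1]
        simp only [Finset.sum_empty, zero_add]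
        rw [EE_const hμ]
      rw [e1, e2]
      apply le_of_eq
      field_simp
    · have h2 := Lev_empty_neg (not_le.mp hL) hF x₀
      rw [h2]
      have := mul_nonneg (GG_nonneg hc hw ∅ L hb.le) (En_nonneg hμ0 hw ∅ hb.le F)
      simpa using this
  | insert j T hj ih =>
    intro L b F hb hF
    have h1 := ih L b (av μ j F) hb (Lev_av hw hj hF)
    have hbw : 0 < b + w j := by linarith [hw j]
    have h2 := ih (L - w j) (b + w j) _ hbw (Lev_dv hμ hj hF (x₀ j))
    have e1 : Function.update x₀ j (x₀ j) = x₀ := Function.update_eq_self j x₀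
    simp only [e1] at h2
    have h3 := En_point hμ hμ0 hw hj hbw.le (dv μ j F) (av_dv hμ j F) (x₀ j) (hx j)
    rw [En_insert hμ w hj b F, GG_insert hj]
    have e2 : F x₀ = av μ j F x₀ + dv μ j F x₀ := by unfold dv; ring
    rw [e2]
    apply cs_two (GG_nonneg hc hw T L hb.le) (mul_nonneg (hc j) (GG_nonneg hc hw T _ hbw.le))
      (En_nonneg hμ0 hw T hb.le _) (En_nonneg hμ0 hw T hbw.le _) h1
    refine h2.trans ?_
    have := mul_le_mul_of_nonneg_left h3 (GG_nonneg hc hw T (L - w j) hbw.le)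
    linarith

/-- evaluation at a point, compared to the mean value -/
theorem eval_mean [∀ i, DecidableEq (Ω i)] (hμ : ∀ i, ∑ a, μ i a = 1) (hμ0 : ∀ i a, 0 ≤ μ i a)
    {w : ι → ℝ} (hw : ∀ i, 0 < w i) (x₀ : ∀ i, Ω i) (hx : ∀ i, 0 < μ i (x₀ i))
    (T : Finset ι) : ∀ (L : ℝ) (F : (∀ i, Ω i) → ℝ), Lev w T L F →
    (F x₀ - EE μ F) ^ 2 ≤ GN (fun i => 1 / μ i (x₀ i) - 1) w T L * En μ w T 0 F := by
  have hle1 : ∀ i, μ i (x₀ i) ≤ 1 := by
    intro i
    rw [← hμ i]
    exact Finset.single_le_sum (f := fun a => μ i a) (fun a _ => hμ0 i a) (mem_univ _)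
  have hc : ∀ i, 0 ≤ 1 / μ i (x₀ i) - 1 := by
    intro i
    rw [sub_nonneg, le_div_iff₀ (hx i)]
    linarith [hle1 i]
  have hw0 : ∀ i, 0 ≤ w i := fun i => (hw i).le
  induction T using Finset.induction_on with
  | empty =>
    intro L F hF
    have h1 : F = fun _ => F x₀ := by funext x; exact Lev_empty_eq hF x x₀
    have h2 : EE μ F = F x₀ := by rw [h1, EE_const hμ]
    rw [h2, sub_self]
    have := mul_nonneg (GN_nonneg hc hw0 ∅ L) (En_nonneg hμ0 hw0 ∅ le_rfl F)
    simpa using this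
  | insert j T hj ih =>
    intro L F hF
    have h1 := ih L (av μ j F) (Lev_av hw0 hj hF)
    rw [EE_av hμ] at h1
    have hbw : 0 < w j := hw j
    have h2 := eval_shift hμ hμ0 hw0 x₀ hx T (L - w j) (w j) _ hbw (Lev_dv hμ hj hF (x₀ j))
    have e1 : Function.update x₀ j (x₀ j) = x₀ := Function.update_eq_self j x₀
    simp only [e1] at h2
    have h3 := En_point hμ hμ0 hw0 hj hbw.le (dv μ j F) (av_dv hμ j F) (x₀ j) (hx j)
    rw [En_insert hμ w hj 0 F, GN_insert hj, zero_add]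
    have e2 : F x₀ - EE μ F = (av μ j F x₀ - EE μ F) + dv μ j F x₀ := by unfold dv; ring
    rw [e2]
    apply cs_two (GN_nonneg hc hw0 T L) (mul_nonneg (hc j) (GG_nonneg hc hw0 T _ hbw.le))
      (En_nonneg hμ0 hw0 T le_rfl _) (En_nonneg hμ0 hw0 T hbw.le _) h1
    refine h2.trans ?_
    have := mul_le_mul_of_nonneg_left h3 (GG_nonneg hc hw0 T (L - w j) hbw.le)
    linarith

end Pool.Agent.J4.H55.SQ
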