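import Pool.Agent.J4.H55.SQ.Rough

set_option autoImplicit false
set_option linter.unusedSectionVars false

/-! # The kernel sum and the Mertens product (helper55) -/

namespace Pool.Agent.J4.H55.SQ

open Finset

/-- partial summation with the weight `1 / log n` -/
lemma abel (a : ℕ → ℝ) (z N : ℕ) (hN : z ≤ N) :
    ∑ n ∈ Ioc z N, a n / Real.log n = (∑ n ∈ Ioc z N, a n) / Real.log N +
      ∑ n ∈ Ico z N, (∑ m ∈ Ioc z n, a m) * (1 / Real.log n - 1 / Real.log ((n + 1 : ℕ) : ℝ)) := by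
  induction N, hN using Nat.le_induction with
  | base => simp
  | succ N hN ih =>
    rw [Finset.sum_Ico_succ_top hN]
    have e1 : Ioc z (N + 1) = insert (N + 1) (Ioc z N) := by
      ext m; simp only [Finset.mem_Ioc, Finset.mem_insert]; omega
    have hnot : N + 1 ∉ Ioc z N := by rw [Finset.mem_Ioc]; omega
    rw [e1, Finset.sum_insert hnot, Finset.sum_insert hnot, ih]
    ring

lemma log_step (a b : ℝ) (ha : 0 < a) (hab : a ≤ b) : a * (1 / a - 1 / b) ≤
    Real.log b - Real.log a := by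
  have hb : 0 < b := lt_of_lt_of_le ha hab
  have h1 := Real.log_le_sub_one_of_pos (show 0 < a / b by positivity)
  rw [Real.log_div ha.ne' hb.ne'] at h1
  have h2 : a * (1 / a - 1 / b) = 1 - a / b := by field_simp
  rw [h2]
  linarith

/-- bound for a sum with linear-logarithmic partial sums -/
lemma abel_bound (a : ℕ → ℝ) (z N : ℕ) (hz : 2 ≤ z) (hN : z ≤ N) (c s : ℝ) (hc : 0 ≤ c)
    (hs : 0 ≤ s)
    (ha : ∀ n, z ≤ n → ∑ m ∈ Ioc z n, a m ≤ c * (Real.log n / Real.log z + s)) :
    ∑ n ∈ Ioc z N, a n / Real.log n ≤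
      c / Real.log z * (Real.log (Real.log N / Real.log z) + (s + 1)) := by
  have hpos : ∀ n, z ≤ n → 0 < Real.log n := fun n hn =>
    Real.log_pos (by exact_mod_cast (by omega : 1 < n))
  have hlz := hpos z le_rfl
  have hlN := hpos N hN
  rw [abel a z N hN]
  have h1 : (∑ n ∈ Ioc z N, a n) / Real.log N ≤ c / Real.log z + c * s / Real.log N := by
    rw [div_le_iff₀ hlN]
    refine (ha N hN).trans (le_of_eq ?_)
    field_simp
  have h2 : ∑ n ∈ Ico z N, (∑ m ∈ Ioc z n, a m) *
        (1 / Real.log n - 1 / Real.log ((n + 1 : ℕ) : ℝ)) ≤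
      ∑ n ∈ Ico z N, (c / Real.log z * (Real.log (Real.log ((n + 1 : ℕ) : ℝ)) -
        Real.log (Real.log n)) + c * s * (1 / Real.log n - 1 / Real.log ((n + 1 : ℕ) : ℝ))) := by
    apply Finset.sum_le_sum
    intro n hn
    rw [Finset.mem_Ico] at hn
    have hln := hpos n hn.1
    have hln1 := hpos (n + 1) (by omega)
    have hle : Real.log n ≤ Real.log ((n + 1 : ℕ) : ℝ) :=
      Real.log_le_log (by exact_mod_cast (by omega : 0 < n)) (by push_cast; linarith)
    have hd : 0 ≤ 1 / Real.log n - 1 / Real.log ((n + 1 : ℕ) : ℝ) := by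
      rw [sub_nonneg]; exact one_div_le_one_div_of_le hln hle
    have h3 := mul_le_mul_of_nonneg_right (ha n hn.1) hd
    refine h3.trans ?_
    have h4 := log_step _ _ hln hle
    have h5 : c / Real.log z * (Real.log n * (1 / Real.log n - 1 / Real.log ((n + 1 : ℕ) : ℝ))) ≤
        c / Real.log z * (Real.log (Real.log ((n + 1 : ℕ) : ℝ)) - Real.log (Real.log n)) :=
      mul_le_mul_of_nonneg_left h4 (by positivity)
    have h6 : c * (Real.log n / Real.log z + s) *
        (1 / Real.log n - 1 / Real.log ((n + 1 : ℕ) : ℝ)) =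
        c / Real.log z * (Real.log n * (1 / Real.log n - 1 / Real.log ((n + 1 : ℕ) : ℝ))) +
        c * s * (1 / Real.log n - 1 / Real.log ((n + 1 : ℕ) : ℝ)) := by ring
    rw [h6]
    linarith
  rw [Finset.sum_add_distrib, ← Finset.mul_sum, ← Finset.mul_sum] at h2
  have t1 : ∑ n ∈ Ico z N, (Real.log (Real.log ((n + 1 : ℕ) : ℝ)) - Real.log (Real.log n)) =
      Real.log (Real.log N) - Real.log (Real.log z) :=
    Finset.sum_Ico_sub (fun n : ℕ => Real.log (Real.log (n : ℝ))) hN
  have t2 : ∑ n ∈ Ico z N, (1 / Real.log n - 1 / Real.log ((n + 1 : ℕ) : ℝ)) =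
      1 / Real.log z - 1 / Real.log N := by
    have := Finset.sum_Ico_sub (fun n : ℕ => - (1 / Real.log (n : ℝ))) hN
    rw [show 1 / Real.log z - 1 / Real.log N = -(1 / Real.log N) - -(1 / Real.log z) by ring,
      ← this]
    apply Finset.sum_congr rfl
    intro n _
    ring
  rw [t1, t2] at h2
  rw [Real.log_div hlN.ne' hlz.ne']
  have h7 : c / Real.log z * (Real.log (Real.log N) - Real.log (Real.log z) + (s + 1)) =
      c / Real.log z + c * s / Real.log N + (c / Real.log z * (Real.log (Real.log N) -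
        Real.log (Real.log z)) + c * s * (1 / Real.log z - 1 / Real.log N)) := by
    field_simp
    ring
  rw [h7]
  linarith

/-- the kernel sum in terms of reciprocals of divisors -/
lemma GN_le {z R : ℕ} (hz : 2 ≤ z) (hR : z ≤ R) :
    GN (fun i : PR z R => 1 / (((i : ℕ) : ℝ) - 1)) (fun i => Real.log (i : ℕ)) univ (Real.log R) ≤
      Real.exp (Real.log R / Real.log z / z) * ∑ d ∈ Ioc z R, ro z R d / Real.log d := by
  have hlz : 0 < Real.log z := Real.log_pos (by exact_mod_cast (by omega : 1 < z))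
  have hz0 : (0:ℝ) < z := by exact_mod_cast (by omega : 0 < z)
  have hi : ∀ i : PR z R, (z : ℝ) + 1 ≤ ((i : ℕ) : ℝ) := by
    intro i
    have := (mem_PR.mp i.2).1.1
    exact_mod_cast this
  have hsumlog : ∀ S : Finset (PR z R), ∑ i ∈ S, Real.log ((i : ℕ) : ℝ) =
      Real.log ((∏ i ∈ S, (i : ℕ) : ℕ) : ℝ) := by
    intro S
    rw [Nat.cast_prod, Real.log_prod (fun i _ => by
      have := (PR_prime i).ne_zero
      exact_mod_cast this)]
  have hpos : ∀ S : Finset (PR z R), 0 < ∏ i ∈ S, (i : ℕ) := fun S =>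
    Finset.prod_pos (fun i _ => (PR_prime i).pos)
  have hterm : ∀ S : Finset (PR z R), S.Nonempty → ∑ i ∈ S, Real.log ((i : ℕ) : ℝ) ≤ Real.log R →
      (∏ i ∈ S, 1 / (((i : ℕ) : ℝ) - 1)) / (∑ i ∈ S, Real.log ((i : ℕ) : ℝ)) ≤
      Real.exp (Real.log R / Real.log z / z) *
        (1 / ((∏ i ∈ S, (i : ℕ) : ℕ) : ℝ) / Real.log ((∏ i ∈ S, (i : ℕ) : ℕ) : ℝ)) := by
    intro S hS hSR
    have hcard : (S.card : ℝ) * Real.log z ≤ Real.log R := by
      refine le_trans ?_ hSR
      rw [← nsmul_eq_mul]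
      apply Finset.card_nsmul_le_sum
      intro i _
      exact Real.log_le_log hz0 (by linarith [hi i])
    have hcard' : (S.card : ℝ) ≤ Real.log R / Real.log z := by
      rwa [le_div_iff₀ hlz]
    have h1 : ∏ i ∈ S, 1 / (((i : ℕ) : ℝ) - 1) ≤
        ∏ i ∈ S, (Real.exp (1 / z) * (1 / ((i : ℕ) : ℝ))) := by
      apply Finset.prod_le_prod
      · intro i _
        have := hi i
        apply div_nonneg zero_le_one; linarith
      · intro i _
        have h2 := hi i
        have h3 : 0 < ((i : ℕ) : ℝ) - 1 := by linarith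
        have h4 : 0 < ((i : ℕ) : ℝ) := by linarith
        have h5 : 1 / (((i : ℕ) : ℝ) - 1) = (1 + 1 / (((i : ℕ) : ℝ) - 1)) * (1 / ((i : ℕ) : ℝ)) := by
          field_simp
          ring
        rw [h5]
        apply mul_le_mul_of_nonneg_right _ (by positivity)
        have h6 : 1 / (((i : ℕ) : ℝ) - 1) ≤ 1 / z :=
          one_div_le_one_div_of_le hz0 (by linarith)
        have := Real.add_one_le_exp (1 / (z:ℝ))
        linarith
    rw [Finset.prod_mul_distrib, Finset.prod_const, ← Real.exp_nat_mul] at h1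
    have h7 : Real.exp ((S.card : ℝ) * (1 / z)) ≤ Real.exp (Real.log R / Real.log z / z) := by
      apply Real.exp_le_exp.mpr
      rw [mul_one_div]
      exact div_le_div_of_nonneg_right hcard' hz0.le
    have h8 : ∏ i ∈ S, 1 / ((i : ℕ) : ℝ) = 1 / ((∏ i ∈ S, (i : ℕ) : ℕ) : ℝ) := by
      rw [Finset.prod_div_distrib, Finset.prod_const_one, Nat.cast_prod]
    rw [h8] at h1
    rw [hsumlog S]
    have hlog0 : 0 ≤ Real.log ((∏ i ∈ S, (i : ℕ) : ℕ) : ℝ) := Real.log_natCast_nonneg _
    rw [mul_div_assoc']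
    apply div_le_div_of_nonneg_right _ hlog0
    refine h1.trans ?_
    apply mul_le_mul_of_nonneg_right h7
    positivity
  unfold GN
  rw [Finset.powerset_univ]
  refine (Finset.sum_le_sum (fun S hS => hterm S (Finset.mem_filter.mp hS).2.1
    (Finset.mem_filter.mp hS).2.2)).trans ?_
  rw [← Finset.mul_sum]
  apply mul_le_mul_of_nonneg_left _ (Real.exp_pos _).le
  -- compare with the sum over divisors
  have h2 : ∑ S ∈ (univ : Finset (Finset (PR z R))).filter
      (fun S : Finset (PR z R) => S.Nonempty ∧ ∑ i ∈ S, Real.log ((i : ℕ) : ℝ) ≤ Real.log R),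
      (1 / ((∏ i ∈ S, (i : ℕ) : ℕ) : ℝ) / Real.log ((∏ i ∈ S, (i : ℕ) : ℕ) : ℝ)) ≤
      ∑ S : Finset (PR z R), if (∏ i ∈ S, (i : ℕ)) ≤ R then
        (if z < ∏ i ∈ S, (i : ℕ) then
          1 / ((∏ i ∈ S, (i : ℕ) : ℕ) : ℝ) / Real.log ((∏ i ∈ S, (i : ℕ) : ℕ) : ℝ) else 0)
        else 0 := by
    rw [Finset.sum_filter]
    apply Finset.sum_le_sum
    intro S _
    by_cases hS : S.Nonempty ∧ ∑ i ∈ S, Real.log ((i : ℕ) : ℝ) ≤ Real.log R
    · rw [if_pos hS]
      have h3 : ∏ i ∈ S, (i : ℕ) ≤ R := by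
        have h4 := hS.2
        rw [hsumlog S] at h4
        have h5 := (Real.log_le_log_iff (by exact_mod_cast hpos S)
          (by exact_mod_cast (by omega : 0 < R))).mp h4
        exact_mod_cast h5
      have h4 : z < ∏ i ∈ S, (i : ℕ) := by
        obtain ⟨j, hj⟩ := hS.1
        have h5 : (j : ℕ) ∣ ∏ i ∈ S, (i : ℕ) := Finset.dvd_prod_of_mem _ hj
        exact lt_of_lt_of_le (mem_PR.mp j.2).1.1 (Nat.le_of_dvd (hpos S) h5)
      rw [if_pos h3, if_pos h4]
    · rw [if_neg hS]
      split_ifs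
      · exact div_nonneg (by positivity) (Real.log_natCast_nonneg _)
      · exact le_rfl
      · exact le_rfl
  refine h2.trans ?_
  rw [← sum_divisors (fun d => if z < d then 1 / (d : ℝ) / Real.log d else 0),
    ← Finset.sum_filter]
  have h3 : ∑ d ∈ Ioc z R, ro z R d / Real.log d = ∑ d ∈ (Ioc z R).filter (fun d => d ∣ PP z R),
      1 / (d : ℝ) / Real.log d := by
    rw [Finset.sum_filter]
    apply Finset.sum_congr rfl
    intro d _
    unfold ro
    split_ifs
    · rfl
    · simp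
  rw [h3]
  apply Finset.sum_le_sum_of_subset_of_nonneg
  · intro d hd
    rw [Finset.mem_filter, Finset.mem_filter, Nat.mem_divisors] at hd
    rw [Finset.mem_filter, Finset.mem_Ioc]
    exact ⟨⟨hd.2, hd.1.2⟩, hd.1.1.1⟩
  · intro d _ _
    exact div_nonneg (by positivity) (Real.log_natCast_nonneg _)

/-- **The kernel sum.** -/
theorem kernel_upper (ε : ℝ) (hε : 0 < ε) : ∃ s : ℝ, 0 < s ∧ ∃ z₀ : ℕ, 2 ≤ z₀ ∧
    ∀ z R : ℕ, z₀ ≤ z → z ≤ R →
    GN (fun i : PR z R => 1 / (((i : ℕ) : ℝ) - 1)) (fun i => Real.log (i : ℕ)) univ (Real.log R) ≤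
      Real.exp (Real.log R / Real.log z / z) *
        ((Real.exp (-Real.eulerMascheroniConstant) + ε) / Real.log z *
          (Real.log (Real.log R / Real.log z) + s)) := by
  obtain ⟨s, hs, z₀, h⟩ := rough_upper ε hε
  refine ⟨s + 1, by positivity, max z₀ 2, le_max_right _ _, ?_⟩
  intro z R hz hR
  have hz2 : 2 ≤ z := (le_max_right _ _).trans hz
  refine (GN_le hz2 hR).trans ?_
  apply mul_le_mul_of_nonneg_left _ (Real.exp_pos _).le
  apply abel_bound (fun d => ro z R d) z R hz2 hR _ s (by positivity) hs.le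
  intro n hn
  exact h z R n ((le_max_left _ _).trans hz) (by omega)

/-- the Mertens product over `(z, R]` -/
theorem mertens_lower : ∃ c : ℝ, 0 < c ∧ ∀ z R : ℕ, 2 ≤ z → z ≤ R →
    c * (Real.log z / Real.log R) ≤ ∏ i : PR z R, (1 - 1 / ((i : ℕ) : ℝ)) := by
  obtain ⟨C, hC0, hC⟩ := Pool.Agent.Helper923.HMertens.mertens_ratio
  refine ⟨Real.exp (-(C / Real.log 2 + 2)), Real.exp_pos _, ?_⟩
  intro z R hz hR
  have hlz : 0 < Real.log z := Real.log_pos (by exact_mod_cast (by omega : 1 < z))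
  have hlR : 0 < Real.log R := Real.log_pos (by exact_mod_cast (by omega : 1 < R))
  have hl2 : 0 < Real.log 2 := Real.log_pos (by norm_num)
  have h1 := (abs_le.mp (hC z R hz hR)).2
  have h2 : ∏ i : PR z R, (1 - 1 / ((i : ℕ) : ℝ)) = ∏ p ∈ PR z R, (1 - 1 / (p : ℝ)) :=
    Finset.prod_coe_sort (PR z R) (fun p => 1 - 1 / (p : ℝ))
  rw [h2]
  have h3 : ∏ p ∈ PR z R, Real.exp (-(1 / (p:ℝ)) - 2 * (1 / ((p:ℝ) * (p + 1)))) ≤
      ∏ p ∈ PR z R, (1 - 1 / (p : ℝ)) := by
    apply Finset.prod_le_prod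
    · intro p _; exact (Real.exp_pos _).le
    · intro p hp
      have hp3 : (3:ℝ) ≤ p := by
        have := (mem_PR.mp hp).1.1
        exact_mod_cast (by omega : 3 ≤ p)
      have hx : 0 < 1 - 1 / (p:ℝ) := by
        rw [sub_pos, div_lt_one (by linarith)]; linarith
      rw [← Real.le_log_iff_exp_le hx]
      have h4 := Real.one_sub_inv_le_log_of_pos hx
      refine le_trans ?_ h4
      have h5 : 1 - (1 - 1 / (p:ℝ))⁻¹ = -(1 / ((p:ℝ) - 1)) := by
        have : (p:ℝ) - 1 ≠ 0 := by linarith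
        have : (p:ℝ) ≠ 0 := by linarith
        have h6 : (1 - 1 / (p:ℝ))⁻¹ = p / (p - 1) := by
          rw [inv_eq_iff_eq_inv, inv_div]
          field_simp
        rw [h6]
        field_simp
        ring
      rw [h5]
      have h7 : 1 / ((p:ℝ) - 1) = 1 / p + 1 / (p * (p - 1)) := by
        have : (p:ℝ) - 1 ≠ 0 := by linarith
        have : (p:ℝ) ≠ 0 := by linarith
        field_simp
        ring
      rw [h7]
      have h8 : 1 / ((p:ℝ) * (p - 1)) ≤ 2 * (1 / ((p:ℝ) * (p + 1))) := by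
        rw [mul_one_div, div_le_div_iff₀ (by nlinarith) (by positivity)]
        nlinarith
      linarith
  refine le_trans ?_ h3
  rw [← Real.exp_sum, Finset.sum_sub_distrib, Finset.sum_neg_distrib, ← Finset.mul_sum]
  have h9 : ∑ p ∈ PR z R, 1 / ((p:ℝ) * (p + 1)) ≤ 1 := by
    have e1 : ∑ p ∈ PR z R, 1 / ((p:ℝ) * (p + 1)) ≤ ∑ p ∈ Ioc z R, 1 / ((p:ℝ) * (p + 1)) :=
      Finset.sum_le_sum_of_subset_of_nonneg (Finset.filter_subset _ _)
        (fun p _ _ => by positivity)
    refine e1.trans ?_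
    have e2 : ∀ N, z ≤ N → ∑ p ∈ Ioc z N, 1 / ((p:ℝ) * (p + 1)) = 1 / ((z:ℝ) + 1) - 1 / ((N:ℝ) + 1) := by
      intro N hN
      induction N, hN using Nat.le_induction with
      | base => simp
      | succ N hN ih =>
        have e3 : Ioc z (N + 1) = insert (N + 1) (Ioc z N) := by
          ext m; simp only [Finset.mem_Ioc, Finset.mem_insert]; omega
        have hnot : N + 1 ∉ Ioc z N := by rw [Finset.mem_Ioc]; omega
        rw [e3, Finset.sum_insert hnot, ih]
        push_cast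
        field_simp
        ring
    rw [e2 R hR]
    have : 1 / ((z:ℝ) + 1) ≤ 1 := by
      rw [div_le_one (by positivity)]
      have : (0:ℝ) ≤ z := Nat.cast_nonneg z
      linarith
    have : 0 ≤ 1 / ((R:ℝ) + 1) := by positivity
    linarith
  have h10 : ∑ p ∈ PR z R, 1 / (p:ℝ) ≤ Real.log (Real.log R / Real.log z) + C / Real.log 2 := by
    have e1 : ∑ p ∈ PR z R, 1 / (p:ℝ) = ∑ p ∈ (Finset.Ioc z R).filter Nat.Prime, (1:ℝ) / p := rfl
    rw [e1]
    have e2 : C / Real.log z ≤ C / Real.log 2 := by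
      apply div_le_div_of_nonneg_left hC0 hl2
      exact Real.log_le_log (by norm_num) (by exact_mod_cast hz)
    linarith
  have h11 : Real.exp (-(C / Real.log 2 + 2)) * (Real.log z / Real.log R) =
      Real.exp (-(C / Real.log 2 + 2) - Real.log (Real.log R / Real.log z)) := by
    rw [Real.exp_sub, Real.exp_log (by positivity)]
    field_simp
  rw [h11]
  apply Real.exp_le_exp.mpr
  linarith

end Pool.Agent.J4.H55.SQ
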