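import Pool.Agent.J4.H55.SQ.Couple

set_option autoImplicit false
set_option linter.unusedSectionVars false

/-! # The abstract limit of the square sieve (helper55) -/

namespace Pool.Agent.J4.H55.SQ

open Finset

variable {ι : Type} [Fintype ι] [DecidableEq ι] {Ω : ι → Type} [∀ i, Fintype (Ω i)]
  [∀ i, DecidableEq (Ω i)]

/-- the energies on the cubes, summed over all shifts -/
theorem sum_En (hN : ∀ i, 2 ≤ Fintype.card (Ω i)) {κ : Type} [Fintype κ]
    (r : κ → ∀ i, Ω i) (hr : ∀ i, Function.Injective (fun k => r k i))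
    {w : ι → ℝ} (hw : ∀ i, 0 ≤ w i) {θ : ℝ}
    (hθ : ∀ i, (Fintype.card κ : ℝ) / Fintype.card (Ω i) ≤ θ) (V : (∀ i, Ω i) → ℝ) :
    ∑ k, EE (NU (r k)) (fun ω => En (PI Ω) w univ 0 (fun D => V (mix (r k) ω D))) ≤
      (1 + θ) * En (UU Ω) w univ 0 V := by
  have h1 : ∀ k, EE (NU (r k)) (fun ω => En (PI Ω) w univ 0 (fun D => V (mix (r k) ω D))) =
      ∑ i, w i * EE (UU Ω) (fun x => 1 / (Fintype.card (Ω i) : ℝ) *
        (V (Function.update x i (r k i)) - V x) ^ 2) := by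
    intro k
    unfold En
    simp only [zero_mul, add_zero]
    rw [EE_sum]
    apply Finset.sum_congr rfl
    intro i _
    rw [← couple_dv hN (r k) V i, ← EE_mul]
  rw [Finset.sum_congr rfl (fun k _ => h1 k), Finset.sum_comm]
  unfold En
  rw [zero_mul, add_zero, Finset.mul_sum]
  apply Finset.sum_le_sum
  intro i _
  rw [← Finset.mul_sum]
  have h2 := sum_couple hN r hr V i
  have h3 : 0 ≤ EE (UU Ω) (fun x => (dv (UU Ω) i V x) ^ 2) :=
    EE_nonneg UU_nonneg (fun x => sq_nonneg _)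
  have h4 : (1 + (Fintype.card κ : ℝ) / Fintype.card (Ω i)) *
        EE (UU Ω) (fun x => (dv (UU Ω) i V x) ^ 2) ≤
      (1 + θ) * EE (UU Ω) (fun x => (dv (UU Ω) i V x) ^ 2) :=
    mul_le_mul_of_nonneg_right (by linarith [hθ i]) h3
  have := mul_le_mul_of_nonneg_left (h2.trans h4) (hw i)
  linarith

lemma sq_split (t v m : ℝ) (ht : 0 < t) :
    (1 - t) * m ^ 2 - (1 - t) / t * (v - m) ^ 2 ≤ v ^ 2 := by
  have h : 0 ≤ (t * m + (v - m)) ^ 2 / t := by positivity
  have e : v ^ 2 - ((1 - t) * m ^ 2 - (1 - t) / t * (v - m) ^ 2) = (t * m + (v - m)) ^ 2 / t := by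
    field_simp
    ring
  linarith

/-- **Abstract limit of the square sieve.** -/
theorem abstract_main (hN : ∀ i, 2 ≤ Fintype.card (Ω i)) {κ : Type} [Fintype κ]
    (r : κ → ∀ i, Ω i) (hr : ∀ i, Function.Injective (fun k => r k i))
    {w : ι → ℝ} {l : ℝ} (hl : 0 < l) (hw : ∀ i, l ≤ w i) {θ : ℝ} (hθ0 : 0 ≤ θ)
    (hθ : ∀ i, (Fintype.card κ : ℝ) / Fintype.card (Ω i) ≤ θ)
    (V : (∀ i, Ω i) → ℝ) {L : ℝ} (hV : Lev w univ L V) {t : ℝ} (ht0 : 0 < t)
    (ht1 : t ≤ 1) :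
    (∏ i, (1 - 1 / (Fintype.card (Ω i) : ℝ))) * ((1 - t) * ((Fintype.card κ : ℝ) -
      (1 + θ) * (L / l) - (1 + θ) * L *
        GN (fun i => 1 / ((Fintype.card (Ω i) : ℝ) - 1)) w univ L / t) *
        EE (UU Ω) (fun x => (V x) ^ 2)) ≤
      ∑ k, EE (UU Ω) (fun x => if ∀ i, x i ≠ r k i then (V x) ^ 2 else 0) := by
  have hwp : ∀ i, 0 < w i := fun i => lt_of_lt_of_le hl (hw i)
  have hw0 : ∀ i, 0 ≤ w i := fun i => (hwp i).le
  set c : ι → ℝ := fun i => 1 / ((Fintype.card (Ω i) : ℝ) - 1) with hc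
  set G : ℝ := GN c w univ L with hG
  have hc0 : ∀ i, 0 ≤ c i := by
    intro i
    have := card_real hN i
    apply div_nonneg zero_le_one; linarith
  have hG0 : 0 ≤ G := GN_nonneg hc0 hw0 _ _
  have hPIc : (fun i : ι => 1 / PI Ω i false - 1) = c := by
    funext i
    have := card_real hN i
    simp only [PI, Bool.false_eq_true, if_false, hc]
    have e3 : (Fintype.card (Ω i) : ℝ) - 1 ≠ 0 := by linarith
    have e4 : (Fintype.card (Ω i) : ℝ) ≠ 0 := by linarith
    field_simp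
    ring
  have hPIpos : ∀ i : ι, 0 < PI Ω i false := by
    intro i
    have := card_real hN i
    simp only [PI, Bool.false_eq_true, if_false]
    have : 1 / (Fintype.card (Ω i) : ℝ) ≤ 1 / 2 := by
      apply one_div_le_one_div_of_le (by norm_num) this
    linarith
  have key : ∀ k (ω : ∀ i, Ω i),
      (1 - t) * (EE (PI Ω) (fun D => (V (mix (r k) ω D)) ^ 2) -
        En (PI Ω) (fun _ => 1) univ 0 (fun D => V (mix (r k) ω D))) -
      (1 - t) / t * (G * En (PI Ω) w univ 0 (fun D => V (mix (r k) ω D))) ≤ (V ω) ^ 2 := by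
    intro k ω
    have hLev := Lev_mix hV (r k) ω
    have h1 := efron_stein (PI_sum (Ω := Ω)) (PI_nonneg hN) hw0 univ L _ hLev
    have h2 := eval_mean (PI_sum (Ω := Ω)) (PI_nonneg hN) hwp (fun _ => false) hPIpos univ L _ hLev
    rw [hPIc] at h2
    have e1 : V (mix (r k) ω (fun _ => false)) = V ω := by
      congr 1
    rw [e1] at h2
    have h3 := sq_split t (V ω) (EE (PI Ω) (fun D => V (mix (r k) ω D))) ht0
    have h4 : 0 ≤ 1 - t := by linarith
    have h5 : 0 ≤ (1 - t) / t := div_nonneg h4 ht0.le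
    have h6 := mul_le_mul_of_nonneg_left h1 h4
    have h7 := mul_le_mul_of_nonneg_left h2 h5
    linarith
  have hW0 : 0 ≤ EE (UU Ω) (fun x => (V x) ^ 2) := EE_nonneg UU_nonneg (fun x => sq_nonneg _)
  have hEw : En (UU Ω) w univ 0 V ≤ L * EE (UU Ω) (fun x => (V x) ^ 2) :=
    spectral (UU_sum hN) UU_nonneg hw0 univ L V hV
  have hE1 : En (UU Ω) (fun _ => 1) univ 0 V ≤ L / l * EE (UU Ω) (fun x => (V x) ^ 2) := by
    have : l * En (UU Ω) (fun _ => 1) univ 0 V ≤ En (UU Ω) w univ 0 V := by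
      unfold En
      simp only [zero_mul, add_zero, one_mul]
      rw [Finset.mul_sum]
      apply Finset.sum_le_sum
      intro i _
      exact mul_le_mul_of_nonneg_right (hw i) (EE_nonneg UU_nonneg (fun x => sq_nonneg _))
    rw [div_mul_eq_mul_div, le_div_iff₀ hl]
    linarith
  have hS1 := sum_En hN r hr (w := fun _ => (1:ℝ)) (fun _ => zero_le_one) hθ V
  have hSw := sum_En hN r hr hw0 hθ V
  have hfin : (1 - t) * ((Fintype.card κ : ℝ) - (1 + θ) * (L / l) - (1 + θ) * L * G / t) *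
        EE (UU Ω) (fun x => (V x) ^ 2) ≤ ∑ k, EE (NU (r k)) (fun ω => (V ω) ^ 2) := by
    have h8 : ∀ k, (1 - t) * (EE (UU Ω) (fun x => (V x) ^ 2) -
        EE (NU (r k)) (fun ω => En (PI Ω) (fun _ => 1) univ 0 (fun D => V (mix (r k) ω D)))) -
      (1 - t) / t * (G * EE (NU (r k))
        (fun ω => En (PI Ω) w univ 0 (fun D => V (mix (r k) ω D)))) ≤
        EE (NU (r k)) (fun ω => (V ω) ^ 2) := by
      intro k
      have h9 := EE_mono (NU_nonneg hN (r k)) (key k)
      rw [EE_sub, EE_mul, EE_sub, EE_mul, EE_mul] at h9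
      rw [couple hN (r k) (fun x => (V x) ^ 2)] at h9
      exact h9
    refine le_trans ?_ (Finset.sum_le_sum (fun k _ => h8 k))
    rw [Finset.sum_sub_distrib, ← Finset.mul_sum, Finset.sum_sub_distrib, ← Finset.mul_sum,
      ← Finset.mul_sum, Finset.sum_const, Finset.card_univ, nsmul_eq_mul]
    have h4 : 0 ≤ 1 - t := by linarith
    have h5 : 0 ≤ (1 - t) / t := div_nonneg h4 ht0.le
    have h10 : ∑ k, EE (NU (r k)) (fun ω => En (PI Ω) (fun _ => 1) univ 0
        (fun D => V (mix (r k) ω D))) ≤ (1 + θ) * (L / l * EE (UU Ω) (fun x => (V x) ^ 2)) :=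
      hS1.trans (mul_le_mul_of_nonneg_left hE1 (by linarith))
    have h11 : ∑ k, EE (NU (r k)) (fun ω => En (PI Ω) w univ 0
        (fun D => V (mix (r k) ω D))) ≤ (1 + θ) * (L * EE (UU Ω) (fun x => (V x) ^ 2)) :=
      hSw.trans (mul_le_mul_of_nonneg_left hEw (by linarith))
    have h12 := mul_le_mul_of_nonneg_left h10 h4
    have h13 := mul_le_mul_of_nonneg_left (mul_le_mul_of_nonneg_left h11 hG0) h5
    have e2 : (1 - t) * ((Fintype.card κ : ℝ) - (1 + θ) * (L / l) - (1 + θ) * L * G / t) *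
        EE (UU Ω) (fun x => (V x) ^ 2) =
        (1 - t) * ((Fintype.card κ : ℝ) * EE (UU Ω) (fun x => (V x) ^ 2)) -
        (1 - t) * ((1 + θ) * (L / l * EE (UU Ω) (fun x => (V x) ^ 2))) -
        (1 - t) / t * (G * ((1 + θ) * (L * EE (UU Ω) (fun x => (V x) ^ 2)))) := by
      field_simp
    rw [e2]
    linarith
  have hav : ∀ k, EE (UU Ω) (fun x => if ∀ i, x i ≠ r k i then (V x) ^ 2 else 0) =
      (∏ i, (1 - 1 / (Fintype.card (Ω i) : ℝ))) * EE (NU (r k)) (fun ω => (V ω) ^ 2) :=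
    fun k => avoid hN (r k) (fun x => (V x) ^ 2)
  rw [Finset.sum_congr rfl (fun k _ => hav k), ← Finset.mul_sum]
  apply mul_le_mul_of_nonneg_left hfin
  apply Finset.prod_nonneg
  intro i _
  have := card_real hN i
  have : 1 / (Fintype.card (Ω i) : ℝ) ≤ 1 / 2 := by
    apply one_div_le_one_div_of_le (by norm_num) this
  linarith

end Pool.Agent.J4.H55.SQ
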