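import Pool.Agent.J4.H55.SQ.Crt
import Pool.Agent.H305R2.MertensE
import Pool.Agent.Helper923.HMertens

set_option autoImplicit false
set_option linter.unusedSectionVars false

/-! # Reciprocal sums over rough and smooth numbers (helper55) -/

namespace Pool.Agent.J4.H55.SQ

open Finset
open scoped Classical

/-- reciprocal sum of the `z`-smooth numbers up to `T` -/
noncomputable def SM (z T : ℕ) : ℝ :=
  ∑ m ∈ (Icc 1 T).filter (fun m => m ∈ Nat.smoothNumbers (z + 1)), 1 / (m : ℝ)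

/-- the Mertens product -/
noncomputable def MM (z : ℕ) : ℝ := ∏ p ∈ (Icc 1 z).filter Nat.Prime, (1 - (p : ℝ)⁻¹)⁻¹

/-- reciprocal if `n` divides the product of the primes in `(z, R]` -/
noncomputable def ro (z R n : ℕ) : ℝ := if n ∣ PP z R then 1 / (n : ℝ) else 0

lemma ro_nonneg (z R n : ℕ) : 0 ≤ ro z R n := by
  unfold ro; split_ifs
  · positivity
  · exact le_rfl

lemma prime_dvd_PP {z R p : ℕ} (hp : p.Prime) (h : p ∣ PP z R) : z < p := by
  unfold PP at h
  obtain ⟨q, hq, hpq⟩ := (Prime.dvd_finsetProd_iff hp.prime _).mp h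
  rw [(Nat.prime_dvd_prime_iff_eq hp (mem_PR.mp hq).2).mp hpq]
  exact (mem_PR.mp hq).1.1

lemma coprime_smooth {z R m d : ℕ} (hm : m ∈ Nat.smoothNumbers (z + 1)) (hd : d ∣ PP z R) :
    Nat.Coprime m d := by
  rw [Nat.coprime_iff_gcd_eq_one]
  by_contra h
  obtain ⟨p, hp, hpd⟩ := Nat.exists_prime_and_dvd h
  have h1 : p ∣ m := hpd.trans (Nat.gcd_dvd_left _ _)
  have h2 : p ∣ PP z R := (hpd.trans (Nat.gcd_dvd_right _ _)).trans hd
  have h3 := prime_dvd_PP hp h2
  have h4 := (Nat.mem_smoothNumbers'.mp hm) p hp h1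
  omega

/-- smooth sum times rough sum -/
lemma smooth_mul_rough {z R T N : ℕ} (hz : 1 ≤ z) (hN : 1 ≤ N) :
    SM z T * (1 + ∑ d ∈ Ioc z N, ro z R d) ≤ 1 + Real.log (T * N) := by
  have h0 : 1 + ∑ d ∈ Ioc z N, ro z R d ≤ ∑ d ∈ (Icc 1 N).filter (fun d => d ∣ PP z R),
      1 / (d : ℝ) := by
    rw [Finset.sum_filter]
    change _ ≤ ∑ d ∈ Icc 1 N, ro z R d
    have h1 : insert 1 (Ioc z N) ⊆ Icc 1 N := by
      intro d hd
      rw [Finset.mem_insert, Finset.mem_Ioc] at hd
      rw [Finset.mem_Icc]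
      omega
    refine le_trans ?_ (Finset.sum_le_sum_of_subset_of_nonneg h1 (fun d _ _ => ro_nonneg z R d))
    rw [Finset.sum_insert (by rw [Finset.mem_Ioc]; omega)]
    have : ro z R 1 = 1 := by unfold ro; simp
    rw [this]
  have hS : 0 ≤ SM z T := Finset.sum_nonneg (fun m _ => by positivity)
  refine (mul_le_mul_of_nonneg_left h0 hS).trans ?_
  unfold SM
  rw [Finset.sum_mul_sum, ← Finset.sum_product']
  set A := (Icc 1 T).filter (fun m => m ∈ Nat.smoothNumbers (z + 1)) with hA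
  set B := (Icc 1 N).filter (fun d => d ∣ PP z R) with hB
  have hinj : Set.InjOn (fun x : ℕ × ℕ => x.1 * x.2) (A ×ˢ B : Finset (ℕ × ℕ)) := by
    intro x hx y hy hxy
    simp only [Finset.coe_product, Set.mem_prod, Finset.mem_coe] at hx hy
    simp only at hxy
    have hx1 := (Finset.mem_filter.mp hx.1)
    have hx2 := (Finset.mem_filter.mp hx.2)
    have hy1 := (Finset.mem_filter.mp hy.1)
    have hy2 := (Finset.mem_filter.mp hy.2)
    have e1 : x.2 ∣ y.2 := by
      have h1 : x.2 ∣ y.1 * y.2 := by rw [← hxy]; exact Dvd.intro_left _ rfl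
      exact (Nat.Coprime.symm (coprime_smooth hy1.2 hx2.2)).dvd_of_dvd_mul_left h1
    have e2 : y.2 ∣ x.2 := by
      have h1 : y.2 ∣ x.1 * x.2 := by rw [hxy]; exact Dvd.intro_left _ rfl
      exact (Nat.Coprime.symm (coprime_smooth hx1.2 hy2.2)).dvd_of_dvd_mul_left h1
    have e3 : x.2 = y.2 := Nat.dvd_antisymm e1 e2
    have hpos : 0 < y.2 := (Finset.mem_Icc.mp hy2.1).1
    rw [e3] at hxy
    have e4 : x.1 = y.1 := Nat.eq_of_mul_eq_mul_right hpos hxy
    exact Prod.ext e4 e3
  have h2 : ∑ x ∈ A ×ˢ B, 1 / (x.1 : ℝ) * (1 / (x.2 : ℝ)) =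
      ∑ n ∈ (A ×ˢ B).image (fun x : ℕ × ℕ => x.1 * x.2), 1 / (n : ℝ) := by
    rw [Finset.sum_image hinj]
    apply Finset.sum_congr rfl
    intro x _
    push_cast
    rw [one_div_mul_one_div]
  rw [h2]
  have h3 : (A ×ˢ B).image (fun x : ℕ × ℕ => x.1 * x.2) ⊆ Icc 1 (T * N) := by
    intro n hn
    rw [Finset.mem_image] at hn
    obtain ⟨x, hx, rfl⟩ := hn
    rw [Finset.mem_product] at hx
    have h4 := Finset.mem_Icc.mp (Finset.mem_filter.mp hx.1).1
    have h5 := Finset.mem_Icc.mp (Finset.mem_filter.mp hx.2).1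
    rw [Finset.mem_Icc]
    exact ⟨Nat.mul_pos h4.1 h5.1, Nat.mul_le_mul h4.2 h5.2⟩
  refine (Finset.sum_le_sum_of_subset_of_nonneg h3 (fun n _ _ => by positivity)).trans ?_
  have h4 := harmonic_le_one_add_log (T * N)
  rw [harmonic_eq_sum_Icc] at h4
  push_cast at h4
  simpa [one_div] using h4

lemma primesBelow_eq (z : ℕ) : Nat.primesBelow (z + 1) = (Icc 1 z).filter Nat.Prime := by
  ext p
  rw [Nat.mem_primesBelow, Finset.mem_filter, Finset.mem_Icc]
  constructor
  · rintro ⟨h1, h2⟩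
    exact ⟨⟨h2.one_lt.le, by omega⟩, h2⟩
  · rintro ⟨h1, h2⟩
    exact ⟨by omega, h2⟩

/-- the multiplicative function `1/n` -/
noncomputable def invHom : ℕ →* ℝ where
  toFun n := 1 / (n : ℝ)
  map_one' := by simp
  map_mul' a b := by push_cast; rw [one_div_mul_one_div]

lemma hasSum_smooth (z : ℕ) :
    HasSum (fun m : Nat.smoothNumbers (z + 1) => 1 / ((m : ℕ) : ℝ)) (MM z) := by
  have h := (EulerProduct.summable_and_hasSum_smoothNumbers_prod_primesBelow_geometric
    (f := invHom) (fun {p} hp => by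
      change ‖1 / (p : ℝ)‖ < 1
      have h2 : (2:ℝ) ≤ p := by exact_mod_cast hp.two_le
      rw [Real.norm_of_nonneg (by positivity), div_lt_one (by linarith)]
      linarith) (z + 1)).2
  rw [primesBelow_eq] at h
  have e : MM z = ∏ p ∈ (Icc 1 z).filter Nat.Prime, (1 - invHom p)⁻¹ := by
    unfold MM
    apply Finset.prod_congr rfl
    intro p _
    change _ = (1 - 1 / (p : ℝ))⁻¹
    rw [one_div]
  rw [e]
  exact h

lemma SM_le (z T : ℕ) : SM z T ≤ MM z := by
  have h := hasSum_smooth z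
  set A := (Icc 1 T).filter (fun m => m ∈ Nat.smoothNumbers (z + 1)) with hA
  have h1 : SM z T = ∑ m ∈ A.subtype (fun m => m ∈ Nat.smoothNumbers (z + 1)),
      1 / ((m : ℕ) : ℝ) := by
    unfold SM
    rw [← hA, Finset.sum_subtype_of_mem (f := fun m : ℕ => 1 / (m : ℝ))]
    intro x hx
    exact (Finset.mem_filter.mp hx).2
  rw [h1, ← h.tsum_eq]
  exact h.summable.sum_le_tsum _ (fun m _ => by positivity)

lemma exists_SM_ge (z : ℕ) (ε : ℝ) (hε : 0 < ε) : ∃ N₀ : ℕ, ∀ N, N₀ ≤ N → MM z - ε ≤ SM z N := by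
  have h := hasSum_smooth z
  have h1 := h.eventually (Ioi_mem_nhds (show MM z - ε < MM z by linarith))
  obtain ⟨A, hA⟩ := h1.exists
  refine ⟨A.sup (fun m => (m : ℕ)), fun N hN => ?_⟩
  refine (le_of_lt hA).trans ?_
  have h2 : ∑ m ∈ A, 1 / ((m : ℕ) : ℝ) = ∑ m ∈ A.map ⟨fun m : Nat.smoothNumbers (z + 1) =>
      (m : ℕ), Subtype.val_injective⟩, 1 / (m : ℝ) := by
    rw [Finset.sum_map]
    rfl
  rw [h2]
  unfold SM
  apply Finset.sum_le_sum_of_subset_of_nonneg
  · intro m hm
    rw [Finset.mem_map] at hm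
    obtain ⟨m', hm', rfl⟩ := hm
    rw [Finset.mem_filter, Finset.mem_Icc]
    refine ⟨⟨Nat.pos_of_ne_zero (Nat.ne_zero_of_mem_smoothNumbers m'.2), ?_⟩, m'.2⟩
    exact (Finset.le_sup (f := fun m : Nat.smoothNumbers (z + 1) => (m : ℕ)) hm').trans hN
  · intro m _ _; positivity

lemma geo_le (p : ℝ) (hp : 2 ≤ p) (N : ℕ) :
    ∑ a ∈ Icc 1 N, (1 / p) ^ a = 1 / (p - 1) * (1 - (1 / p) ^ N) := by
  induction N with
  | zero => simp
  | succ n ih =>
    rw [Finset.sum_Icc_succ_top (by omega), ih, pow_succ]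
    have h1 : p - 1 ≠ 0 := by linarith
    have h2 : p ≠ 0 := by linarith
    generalize (1 / p) ^ n = x
    field_simp
    ring

/-- logarithmic moment of the smooth numbers -/
lemma smooth_log (z N : ℕ) :
    ∑ m ∈ (Icc 1 N).filter (fun m => m ∈ Nat.smoothNumbers (z + 1)),
      Real.log m / (m : ℝ) ≤
      (∑ p ∈ (Icc 1 z).filter Nat.Prime, Real.log p / ((p : ℝ) - 1)) * SM z N := by
  set B := (Icc 1 N).filter (fun m => m ∈ Nat.smoothNumbers (z + 1)) with hB
  set P := (Icc 1 z).filter Nat.Prime with hP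
  have h1 : ∀ m ∈ B, Real.log m / (m : ℝ) = ∑ p ∈ P, ∑ a ∈ Icc 1 N,
      if p ^ a ∣ m then Real.log p / (m : ℝ) else 0 := by
    intro m hm
    have hm1 := Finset.mem_Icc.mp (Finset.mem_filter.mp hm).1
    have hm2 := (Finset.mem_filter.mp hm).2
    have hlog : Real.log m = ∑ p ∈ P, (m.factorization p : ℝ) * Real.log p := by
      rw [Real.log_nat_eq_sum_factorization, Finsupp.sum]
      apply Finset.sum_subset
      · intro p hp
        rw [Nat.support_factorization, Nat.mem_primeFactors] at hp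
        rw [hP, Finset.mem_filter, Finset.mem_Icc]
        have := (Nat.mem_smoothNumbers'.mp hm2) p hp.1 hp.2.1
        exact ⟨⟨hp.1.one_lt.le, by omega⟩, hp.1⟩
      · intro p _ hp
        rw [Finsupp.notMem_support_iff] at hp
        rw [hp]; simp
    rw [hlog, Finset.sum_div]
    apply Finset.sum_congr rfl
    intro p hp
    have hpp : p.Prime := (Finset.mem_filter.mp hp).2
    rw [← Finset.sum_filter, Finset.sum_const, nsmul_eq_mul]
    have h3 : m.factorization p = ((Icc 1 N).filter (fun a => p ^ a ∣ m)).card := by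
      rw [Nat.factorization_eq_card_pow_dvd m hpp]
      congr 1
      ext a
      rw [Finset.mem_filter, Finset.mem_filter, Finset.mem_Ico, Finset.mem_Icc]
      constructor
      · rintro ⟨h4, h5⟩
        exact ⟨⟨h4.1, by omega⟩, h5⟩
      · rintro ⟨h4, h5⟩
        refine ⟨⟨h4.1, ?_⟩, h5⟩
        have h6 : p ^ a ≤ m := Nat.le_of_dvd hm1.1 h5
        exact lt_of_lt_of_le (Nat.lt_pow_self hpp.one_lt) h6
    rw [h3]
    ring
  rw [Finset.sum_congr rfl h1, Finset.sum_comm, Finset.sum_mul]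
  apply Finset.sum_le_sum
  intro p hp
  have hpp : p.Prime := (Finset.mem_filter.mp hp).2
  have hp2 : (2:ℝ) ≤ p := by exact_mod_cast hpp.two_le
  have hlp : 0 ≤ Real.log p := Real.log_nonneg (by linarith)
  rw [Finset.sum_comm]
  have hSM : 0 ≤ SM z N := Finset.sum_nonneg (fun m _ => by positivity)
  have h4 : ∀ a ∈ Icc 1 N, ∑ m ∈ B, (if p ^ a ∣ m then Real.log p / (m : ℝ) else 0) ≤
      Real.log p * (1 / (p : ℝ)) ^ a * SM z N := by
    intro a _
    rw [← Finset.sum_filter]
    have h5 : ∑ m ∈ B.filter (fun m => p ^ a ∣ m), Real.log p / (m : ℝ) ≤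
        ∑ m ∈ B.image (fun m => p ^ a * m), Real.log p / (m : ℝ) := by
      apply Finset.sum_le_sum_of_subset_of_nonneg
      · intro m hm
        rw [Finset.mem_filter] at hm
        obtain ⟨m', hm'⟩ := hm.2
        rw [Finset.mem_image]
        refine ⟨m', ?_, hm'.symm⟩
        have hm1 := Finset.mem_Icc.mp (Finset.mem_filter.mp hm.1).1
        have hm2 := (Finset.mem_filter.mp hm.1).2
        rw [hB, Finset.mem_filter, Finset.mem_Icc]
        have h6 : m' ∣ m := Dvd.intro_left _ hm'.symm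
        refine ⟨⟨Nat.pos_of_dvd_of_pos h6 hm1.1, (Nat.le_of_dvd hm1.1 h6).trans hm1.2⟩, ?_⟩
        exact Nat.mem_smoothNumbers_of_dvd hm2 h6
      · intro m _ _
        exact div_nonneg hlp (Nat.cast_nonneg _)
    refine h5.trans ?_
    rw [Finset.sum_image (by
      intro x _ y _ hxy
      exact Nat.eq_of_mul_eq_mul_left (pow_pos hpp.pos a) hxy)]
    unfold SM
    rw [Finset.mul_sum]
    apply le_of_eq
    apply Finset.sum_congr rfl
    intro m _
    push_cast
    rw [one_div_pow, div_mul_eq_div_div]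
    field_simp
  refine (Finset.sum_le_sum h4).trans ?_
  rw [← Finset.sum_mul, ← Finset.mul_sum]
  apply mul_le_mul_of_nonneg_right _ hSM
  have h7 : ∑ a ∈ Icc 1 N, (1 / (p : ℝ)) ^ a ≤ 1 / ((p : ℝ) - 1) := by
    rw [geo_le (p : ℝ) hp2 N]
    have : 0 ≤ (1 / (p : ℝ)) ^ N := by positivity
    have h9 : 0 ≤ 1 / ((p : ℝ) - 1) := by
      apply div_nonneg zero_le_one; linarith
    nlinarith
  calc Real.log p * ∑ a ∈ Icc 1 N, (1 / (p : ℝ)) ^ a ≤ Real.log p * (1 / ((p : ℝ) - 1)) :=
        mul_le_mul_of_nonneg_left h7 hlp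
    _ = Real.log p / ((p : ℝ) - 1) := by ring

/-- lower bound for the truncated smooth sum -/
theorem SM_ge : ∃ C : ℝ, 0 < C ∧ ∀ z T : ℕ, 2 ≤ z → 2 ≤ T →
    MM z * (1 - (Real.log z + C) / Real.log T) ≤ SM z T := by
  obtain ⟨C₁, hC₁⟩ := Pool.Agent.Helper923.HMertens.mertens_log
  obtain ⟨C₂, hC₂0, hC₂⟩ := Pool.Agent.Helper923.HMertens.sum_small_bound
  have hC10 : 0 ≤ C₁ := (abs_nonneg _).trans (hC₁ 1 le_rfl)
  refine ⟨C₁ + C₂ + 1, by positivity, ?_⟩
  intro z T hz hT
  have hlT : 0 < Real.log T := Real.log_pos (by exact_mod_cast (by omega : 1 < T))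
  have hlz : 0 < Real.log z := Real.log_pos (by exact_mod_cast (by omega : 1 < z))
  -- the sum over primes
  have hsum : ∑ p ∈ (Icc 1 z).filter Nat.Prime, Real.log p / ((p : ℝ) - 1) ≤
      Real.log z + (C₁ + C₂) := by
    have e1 : ∀ p ∈ (Icc 1 z).filter Nat.Prime, Real.log p / ((p : ℝ) - 1) =
        Real.log p / p + Real.log p / (p * (p - 1)) := by
      intro p hp
      have hp2 : (2:ℝ) ≤ p := by exact_mod_cast (Finset.mem_filter.mp hp).2.two_le
      have h1 : (p : ℝ) - 1 ≠ 0 := by linarith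
      have h2 : (p : ℝ) ≠ 0 := by linarith
      field_simp
      ring
    rw [Finset.sum_congr rfl e1, Finset.sum_add_distrib]
    have h1 := (abs_le.mp (hC₁ z (by omega))).2
    have h2 := hC₂ z
    have h3 : (∑ p ∈ (Icc 1 z).filter Nat.Prime, Real.log p / ((p : ℝ) * (p - 1))) ≤ C₂ := h2
    linarith
  have hMM0 : 0 ≤ MM z := by
    unfold MM
    apply Finset.prod_nonneg
    intro p hp
    have hp2 : (2:ℝ) ≤ p := by exact_mod_cast (Finset.mem_filter.mp hp).2.two_le
    have : (p : ℝ)⁻¹ ≤ 1 := inv_le_one_of_one_le₀ (by linarith)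
    exact inv_nonneg.mpr (by linarith)
  have key : ∀ N : ℕ, T ≤ N → SM z N - SM z T ≤
      MM z * ((Real.log z + (C₁ + C₂)) / Real.log T) := by
    intro N hTN
    have e1 : SM z N - SM z T = ∑ m ∈ (Ioc T N).filter (fun m => m ∈ Nat.smoothNumbers (z + 1)),
        1 / (m : ℝ) := by
      unfold SM
      rw [sub_eq_iff_eq_add, ← Finset.sum_union]
      · congr 1
        ext m
        simp only [Finset.mem_union, Finset.mem_filter, Finset.mem_Icc, Finset.mem_Ioc]
        constructor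
        · rintro ⟨h1, h2⟩
          by_cases h3 : m ≤ T
          · right; exact ⟨⟨h1.1, h3⟩, h2⟩
          · left; exact ⟨⟨by omega, h1.2⟩, h2⟩
        · rintro (⟨h1, h2⟩ | ⟨h1, h2⟩)
          · exact ⟨⟨by omega, h1.2⟩, h2⟩
          · exact ⟨⟨h1.1, by omega⟩, h2⟩
      · rw [Finset.disjoint_left]
        intro m h1 h2
        simp only [Finset.mem_filter, Finset.mem_Icc, Finset.mem_Ioc] at h1 h2
        omega
    rw [e1]
    have h1 : ∑ m ∈ (Ioc T N).filter (fun m => m ∈ Nat.smoothNumbers (z + 1)), 1 / (m : ℝ) ≤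
        ∑ m ∈ (Icc 1 N).filter (fun m => m ∈ Nat.smoothNumbers (z + 1)),
          Real.log m / (m : ℝ) / Real.log T := by
      refine le_trans (b := ∑ m ∈ (Ioc T N).filter (fun m => m ∈ Nat.smoothNumbers (z + 1)),
          Real.log m / (m : ℝ) / Real.log T) ?_ ?_
      · apply Finset.sum_le_sum
        intro m hm
        have h2 := (Finset.mem_Ioc.mp (Finset.mem_filter.mp hm).1)
        have h3 : Real.log T ≤ Real.log m :=
          Real.log_le_log (by exact_mod_cast (by omega : 0 < T)) (by exact_mod_cast h2.1.le)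
        have h4 : (0:ℝ) < m := by exact_mod_cast (by omega : 0 < m)
        rw [le_div_iff₀ hlT, div_mul_eq_mul_div, one_mul]
        exact div_le_div_of_nonneg_right h3 h4.le
      · apply Finset.sum_le_sum_of_subset_of_nonneg
        · intro m hm
          rw [Finset.mem_filter, Finset.mem_Ioc] at hm
          rw [Finset.mem_filter, Finset.mem_Icc]
          exact ⟨⟨by omega, hm.1.2⟩, hm.2⟩
        · intro m _ _
          exact div_nonneg (div_nonneg (Real.log_natCast_nonneg m) (Nat.cast_nonneg m)) hlT.le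
    refine h1.trans ?_
    rw [← Finset.sum_div]
    have h2 := smooth_log z N
    have h3 : (∑ p ∈ (Icc 1 z).filter Nat.Prime, Real.log p / ((p : ℝ) - 1)) * SM z N ≤
        (Real.log z + (C₁ + C₂)) * MM z := by
      apply mul_le_mul hsum (SM_le z N)
      · exact Finset.sum_nonneg (fun m _ => by positivity)
      · positivity
    have h4 := div_le_div_of_nonneg_right (h2.trans h3) hlT.le
    refine h4.trans (le_of_eq ?_)
    ring
  have h5 : MM z - SM z T ≤ MM z * ((Real.log z + (C₁ + C₂)) / Real.log T) := by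
    apply le_of_forall_pos_le_add
    intro ε hε
    obtain ⟨N₀, hN₀⟩ := exists_SM_ge z ε hε
    have h6 := hN₀ (max N₀ T) (le_max_left _ _)
    have h7 := key (max N₀ T) (le_max_right _ _)
    linarith
  have h8 : MM z * ((Real.log z + (C₁ + C₂)) / Real.log T) ≤
      MM z * ((Real.log z + (C₁ + C₂ + 1)) / Real.log T) := by
    apply mul_le_mul_of_nonneg_left _ hMM0
    exact div_le_div_of_nonneg_right (by linarith) hlT.le
  have h9 : MM z * (1 - (Real.log z + (C₁ + C₂ + 1)) / Real.log T) =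
      MM z - MM z * ((Real.log z + (C₁ + C₂ + 1)) / Real.log T) := by ring
  rw [h9]
  linarith

/-- the reciprocal sum of the divisors of the product of the primes in `(z, R]` -/
theorem rough_upper (ε : ℝ) (hε : 0 < ε) : ∃ s : ℝ, 0 < s ∧ ∃ z₀ : ℕ, ∀ z R N : ℕ, z₀ ≤ z →
    1 ≤ N → ∑ d ∈ Ioc z N, ro z R d ≤
      (Real.exp (-Real.eulerMascheroniConstant) + ε) * (Real.log N / Real.log z + s) := by
  obtain ⟨C, hC0, hC⟩ := SM_ge
  set γ := Real.eulerMascheroniConstant with hγ
  set e := Real.exp (-γ) with he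
  have he0 : 0 < e := Real.exp_pos _
  have heg : Real.exp γ * e = 1 := by rw [he, ← Real.exp_add]; simp
  -- the constant `1/(e+ε) < e^γ`
  have hlt : 1 / (e + ε / 2) < Real.exp γ := by
    rw [div_lt_iff₀ (by positivity)]
    have : 0 < Real.exp γ * (ε / 2) := by positivity
    nlinarith
  have hm3 := Pool.Agent.H305R2.mertens_three
  have hev := hm3.eventually (Ioi_mem_nhds hlt)
  obtain ⟨z₁, hz₁⟩ := Filter.eventually_atTop.mp hev
  -- choose the integer `k` with `(1 - 2/k)⁻¹ (e + ε/2) ≤ e + ε`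
  obtain ⟨k, hk⟩ := exists_nat_gt (2 * (e + ε) / (ε / 2) + 2)
  have hk2 : (2:ℝ) < k := by
    have : 0 < 2 * (e + ε) / (ε / 2) := by positivity
    linarith
  have hkk : (e + ε / 2) ≤ (e + ε) * (1 - 2 / k) := by
    have h1 : 2 * (e + ε) / (ε / 2) ≤ k := by linarith
    rw [div_le_iff₀ (by positivity)] at h1
    have h2 : (e + ε) * (2 / k) ≤ ε / 2 := by
      rw [mul_div_assoc', div_le_iff₀ (by linarith)]
      linarith
    nlinarith
  obtain ⟨z₂, hz₂⟩ := exists_nat_gt (Real.exp (C + 1))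
  refine ⟨k + 1, by positivity, max z₁ (max z₂ 3), ?_⟩
  intro z R N hz hN
  have hz1 : z₁ ≤ z := (le_max_left _ _).trans hz
  have hz2 : z₂ ≤ z := ((le_max_left _ _).trans (le_max_right _ _)).trans hz
  have hz3 : 3 ≤ z := ((le_max_right _ _).trans (le_max_right _ _)).trans hz
  have hlz : C + 1 < Real.log z := by
    rw [Real.lt_log_iff_exp_lt (by exact_mod_cast (by omega : 0 < z))]
    exact lt_of_lt_of_le hz₂ (by exact_mod_cast hz2)
  have hlz0 : 0 < Real.log z := by linarith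
  have hMM : Real.log z / (e + ε / 2) ≤ MM z := by
    have h1 : 1 / (e + ε / 2) < (∏ p ∈ (Finset.Icc 1 z).filter Nat.Prime, (1 - (p : ℝ)⁻¹)⁻¹) /
        Real.log z := hz₁ z hz1
    rw [lt_div_iff₀ hlz0] at h1
    have h2 : MM z = ∏ p ∈ (Finset.Icc 1 z).filter Nat.Prime, (1 - (p : ℝ)⁻¹)⁻¹ := rfl
    rw [h2]
    calc Real.log z / (e + ε / 2) = 1 / (e + ε / 2) * Real.log z := by ring
      _ ≤ _ := h1.le
  have hlT : Real.log ((z ^ k : ℕ) : ℝ) = k * Real.log z := by
    push_cast
    rw [Real.log_pow]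
  have hT2 : 2 ≤ z ^ k := by
    have : 1 ≤ k := by
      by_contra h
      have : k = 0 := by omega
      subst this
      norm_num at hk2
    calc 2 ≤ z := by omega
      _ = z ^ 1 := (pow_one z).symm
      _ ≤ z ^ k := Nat.pow_le_pow_right (by omega) this
  have hSM := hC z (z ^ k) (by omega) hT2
  rw [hlT] at hSM
  have h3 : (Real.log z + C) / (k * Real.log z) ≤ 2 / k := by
    rw [div_le_div_iff₀ (by positivity) (by linarith)]
    have : C ≤ Real.log z := by linarith
    nlinarith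
  have h2k : 0 < 1 - 2 / (k:ℝ) := by
    rw [sub_pos, div_lt_one (by linarith)]; exact hk2
  have hSM2 : Real.log z / (e + ε) ≤ SM z (z ^ k) := by
    have h4 : Real.log z / (e + ε) ≤ Real.log z / (e + ε / 2) * (1 - 2 / k) := by
      rw [div_mul_eq_mul_div, div_le_div_iff₀ (by positivity) (by positivity)]
      have := mul_le_mul_of_nonneg_left hkk hlz0.le
      linarith
    have h5 : MM z * (1 - 2 / k) ≤ SM z (z ^ k) := by
      refine le_trans ?_ hSM
      apply mul_le_mul_of_nonneg_left (by linarith)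
      exact (by positivity : (0:ℝ) ≤ Real.log z / (e + ε / 2)).trans hMM
    exact h4.trans ((mul_le_mul_of_nonneg_right hMM h2k.le).trans h5)
  have h6 := smooth_mul_rough (z := z) (R := R) (T := z ^ k) (N := N) (by omega) hN
  have hro0 : 0 ≤ ∑ d ∈ Ioc z N, ro z R d := Finset.sum_nonneg (fun d _ => ro_nonneg z R d)
  have h7 : Real.log z / (e + ε) * (1 + ∑ d ∈ Ioc z N, ro z R d) ≤
      1 + Real.log (((z ^ k : ℕ) : ℝ) * N) :=
    (mul_le_mul_of_nonneg_right hSM2 (by linarith)).trans h6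
  have hN0 : (0:ℝ) < N := by exact_mod_cast hN
  rw [Real.log_mul (by positivity) hN0.ne', hlT] at h7
  rw [div_mul_eq_mul_div, div_le_iff₀ (by positivity)] at h7
  have h8 : Real.log z * ∑ d ∈ Ioc z N, ro z R d ≤
      Real.log z * ((e + ε) * (Real.log N / Real.log z + (k + 1))) := by
    have e1 : Real.log z * ((e + ε) * (Real.log N / Real.log z + (k + 1))) =
        (Real.log N + (k + 1) * Real.log z) * (e + ε) := by
      field_simp
    rw [e1]
    have h9 : (1:ℝ) ≤ Real.log z := by linarith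
    nlinarith
  exact le_of_mul_le_mul_left h8 hlz0

end Pool.Agent.J4.H55.SQ
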